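import Mathlib
import Pool.Agent.N972.PC15.XC

/-!
# The number of pairs with given Gram matrix for a norm divisible by five, part one: frames

The results of `Pool.Agent.N972.PC15.Cnt` for all odd squarefree norms `n1`.
-/

set_option autoImplicit false
set_option linter.all false

namespace Pool.Agent.N575.P15.PC5

open Finset Matrix
open Pool.Agent.Y288.Z7 (cols dd3 det_cols cols_eq dt crs crs0 crs1 crs2 ext3 dd3_eq dd3_eq' dt_comm
  dcross crs_lin crs_sub dt_crs_left dt_crs_right dt_add dt_sub dt_smul smul_dt cramer3 small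
  parallel bez content crs_sub_smul crs_smul)
open Pool.Agent.N972.PC15

theorem div_ten {n1 : ℕ} (hs : Squarefree n1) (h2 : Nat.Coprime n1 2) {X : ℤ}
    (h : (n1 : ℤ) ∣ 10 * X) (h5 : (5 : ℤ) ∣ n1 → (5 : ℤ) ∣ X) : (n1 : ℤ) ∣ X := by
  by_cases h5n : 5 ∣ n1
  · obtain ⟨c, rfl⟩ := h5n
    have hc5 : Nat.Coprime 5 c := by
      rw [Nat.Prime.coprime_iff_not_dvd (by norm_num)]
      rintro ⟨a, rfl⟩
      have := hs 5 ⟨a, by ring⟩
      rw [Nat.isUnit_iff] at this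
      omega
    have hc2 : Nat.Coprime c 2 := Nat.Coprime.coprime_mul_left h2
    have hc10 : Nat.Coprime c 10 := by
      have : (10 : ℕ) = 2 * 5 := by norm_num
      rw [this]
      exact Nat.Coprime.mul_right hc2 hc5.symm
    have g1 : (c : ℤ) ∣ X := by
      have i1 : IsCoprime (c : ℤ) (10 : ℤ) := by
        have := Nat.isCoprime_iff_coprime.2 hc10
        exact_mod_cast this
      apply i1.dvd_of_dvd_mul_left
      refine dvd_trans ⟨5, ?_⟩ h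
      push_cast
      ring
    have g2 : (5 : ℤ) ∣ X := h5 ⟨c, by push_cast; ring⟩
    have i2 : IsCoprime (5 : ℤ) (c : ℤ) := by
      have := Nat.isCoprime_iff_coprime.2 hc5
      exact_mod_cast this
    have := i2.mul_dvd g2 g1
    push_cast
    exact this
  · have h10 : Nat.Coprime n1 10 := by
      have : (10 : ℕ) = 2 * 5 := by norm_num
      rw [this]
      exact Nat.Coprime.mul_right h2 ((Nat.Prime.coprime_iff_not_dvd (by norm_num)).2 h5n).symm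
    have i1 : IsCoprime (n1 : ℤ) (10 : ℤ) := by
      have := Nat.isCoprime_iff_coprime.2 h10
      exact_mod_cast this
    exact i1.dvd_of_dvd_mul_left h

/-- the arithmetic of the inverse of the Gram matrix -/
theorem inv_arithG {n1 : ℕ} (hs : Squarefree n1) (h2 : Nat.Coprime n1 2) {μ ν β φ g d ee f : ℤ}
    (hφ : 0 < φ) (hd : n1 * d = μ ^ 2 + 20 * φ) (hg : 4 * φ * g = β ^ 2 + n1)
    (hee : n1 * ee = 10 * β + μ * ν) (hf : n1 * f = 20 * g + ν ^ 2) :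
    ∃ x y α : ℤ, n1 * x = β * ν - 2 * g * μ ∧ n1 * y = β * μ - 2 * φ * ν ∧
      n1 * α = 5 + φ * x ^ 2 + β * x * y + g * y ^ 2 ∧ 0 < α := by
  have hn0 : (0 : ℤ) < n1 := by exact_mod_cast Nat.pos_of_ne_zero hs.ne_zero
  have hx10 : (n1 : ℤ) ∣ 10 * (β * ν - 2 * g * μ) := by
    refine ⟨ee * ν - μ * f, ?_⟩
    linear_combination (-ν) * hee + μ * hf
  have hy10 : (n1 : ℤ) ∣ 10 * (β * μ - 2 * φ * ν) := by
    refine ⟨ee * μ - ν * d, ?_⟩
    linear_combination (-μ) * hee + ν * hd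
  have h5x : (5 : ℤ) ∣ n1 → (5 : ℤ) ∣ β * ν - 2 * g * μ ∧ (5 : ℤ) ∣ β * μ - 2 * φ * ν := by
    rintro ⟨c, hc⟩
    have p5 : Prime (5 : ℤ) := by norm_num
    have hμ : (5 : ℤ) ∣ μ := by
      apply p5.dvd_of_dvd_pow (n := 2)
      refine ⟨c * d - 4 * φ, ?_⟩
      linear_combination d * hc - hd
    have hν : (5 : ℤ) ∣ ν := by
      apply p5.dvd_of_dvd_pow (n := 2)
      refine ⟨c * f - 4 * g, ?_⟩
      linear_combination f * hc - hf
    exact ⟨Dvd.dvd.sub (hν.mul_left _) (hμ.mul_left _), Dvd.dvd.sub (hμ.mul_left _) (hν.mul_left _)⟩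
  have hx : (n1 : ℤ) ∣ β * ν - 2 * g * μ := div_ten hs h2 hx10 fun h => (h5x h).1
  have hy : (n1 : ℤ) ∣ β * μ - 2 * φ * ν := div_ten hs h2 hy10 fun h => (h5x h).2
  obtain ⟨x, hx⟩ := hx
  obtain ⟨y, hy⟩ := hy
  -- `2 φ x + β y = - μ`, `β x + 2 γ y = - ν`
  have e1 : 2 * φ * x + β * y = -μ := by
    apply mul_left_cancel₀ hn0.ne'
    linear_combination (-(2 * φ)) * hx - β * hy - μ * hg
  have e2 : β * x + 2 * g * y = -ν := by
    apply mul_left_cancel₀ hn0.ne'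
    linear_combination (-β) * hx - (2 * g) * hy - ν * hg
  obtain ⟨q, hq⟩ : ∃ q, q = 5 + φ * x ^ 2 + β * x * y + g * y ^ 2 := ⟨_, rfl⟩
  have f1 : 4 * φ * q = n1 * (d + y ^ 2) := by
    rw [hq]
    linear_combination (2 * φ * x + β * y - μ) * e1 - hd + y ^ 2 * hg
  have f2 : 4 * g * q = n1 * (f + x ^ 2) := by
    rw [hq]
    linear_combination (β * x + 2 * g * y - ν) * e2 - hf + x ^ 2 * hg
  have f3 : 2 * β * q = n1 * (ee - x * y) := by
    rw [hq]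
    linear_combination (β * x + 2 * g * y) * e1 - μ * e2 - hee - x * y * hg
  have f4 : 4 * q ^ 2 = n1 * ((d + y ^ 2) * (f + x ^ 2) - (ee - x * y) ^ 2) := by
    apply mul_left_cancel₀ hn0.ne'
    have : (n1 : ℤ) * (4 * q ^ 2) = (4 * φ * q) * (4 * g * q) - (2 * β * q) ^ 2 := by
      linear_combination (-(4 * q ^ 2)) * hg
    rw [this, f1, f2, f3]
    ring
  have hc4 : IsCoprime (n1 : ℤ) (4 : ℤ) := by
    have h4 : Nat.Coprime n1 (2 ^ 2) := h2.pow_right 2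
    have := Nat.isCoprime_iff_coprime.2 h4
    exact_mod_cast this
  have f5 : (n1 : ℤ) ∣ q ^ 2 := by
    apply hc4.dvd_of_dvd_mul_left
    exact ⟨_, f4⟩
  have f6 : (n1 : ℤ) ∣ q := by
    have hsZ : Squarefree (n1 : ℤ) := Int.squarefree_natCast.2 hs
    exact (hsZ.dvd_pow_iff_dvd two_ne_zero).1 f5
  obtain ⟨α, hα⟩ := f6
  refine ⟨x, y, α, hx.symm, hy.symm, by rw [← hα, hq], ?_⟩
  have hq0 : 0 < q := by
    have h1 : 0 < 4 * φ * q := by
      rw [f1, mul_add, hd]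
      nlinarith [sq_nonneg μ, mul_nonneg hn0.le (sq_nonneg y)]
    by_contra hcon
    push Not at hcon
    nlinarith
  rw [hα] at hq0
  exact (mul_pos_iff_of_pos_left hn0).1 hq0

/-- the Gram matrix is the adjugate of an even form of determinant ten -/
theorem mm_posG {n1 Q : ℕ} {b : ℤ} (hs : Squarefree n1) (h2 : Nat.Coprime n1 2) {e μ β ν : ℕ}
    (h : (e, μ, β, ν) ∈ XX n1 b Q) : ∃ M, PosF M ∧ M.adjugate = mm n1 Q (e, μ, β, ν) := by
  have hw := wit_of_mem h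
  have hmm : mm n1 Q (e, μ, β, ν) = !![(n1 : ℤ), (μ : ℤ), (ν : ℤ);
     (μ : ℤ), (((μ ^ 2 + 20 * (Q / e ^ 2)) / n1 : ℕ) : ℤ),
       (((10 * β + μ * ν) / n1 : ℕ) : ℤ);
     (ν : ℤ), (((10 * β + μ * ν) / n1 : ℕ) : ℤ),
       (((20 * ((β ^ 2 + n1) / (4 * (Q / e ^ 2))) + ν ^ 2) / n1 : ℕ) : ℤ)] := rfl
  rw [hmm]
  obtain ⟨he, hD, hβ, hμ, hν, hb, hd, hg, hee, hf⟩ := hw
  generalize (μ ^ 2 + 20 * (Q / e ^ 2)) / n1 = d at *
  generalize (10 * β + μ * ν) / n1 = ee at *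
  generalize (20 * ((β ^ 2 + n1) / (4 * (Q / e ^ 2))) + ν ^ 2) / n1 = f at *
  generalize (β ^ 2 + n1) / (4 * (Q / e ^ 2)) = g at *
  generalize Q / e ^ 2 = φ at *
  have hn : (0 : ℤ) < n1 := by exact_mod_cast (by omega : 0 < n1)
  have hφ : (0 : ℤ) < φ := by exact_mod_cast (by omega : 0 < φ)
  have k1 : (n1 : ℤ) * d = μ ^ 2 + 20 * φ := by exact_mod_cast hd
  have k2 : 4 * (φ : ℤ) * g = β ^ 2 + n1 := by exact_mod_cast hg
  have k3 : (n1 : ℤ) * ee = 10 * β + μ * ν := by exact_mod_cast hee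
  have k4 : (n1 : ℤ) * f = 20 * g + ν ^ 2 := by exact_mod_cast hf
  obtain ⟨x, y, α, hx, hy, hα, hα0⟩ := inv_arithG hs h2 hφ k1 k2 k3 k4
  have e1 : 2 * (φ : ℤ) * x + β * y = -μ := by
    apply mul_left_cancel₀ hn.ne'
    linear_combination (2 * (φ : ℤ)) * hx + β * hy - μ * k2
  have e2 : (β : ℤ) * x + 2 * g * y = -ν := by
    apply mul_left_cancel₀ hn.ne'
    linear_combination (β : ℤ) * hx + (2 * (g : ℤ)) * hy - ν * k2
  have e3 : 4 * α * φ - y ^ 2 = d := by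
    apply mul_left_cancel₀ hn.ne'
    linear_combination (4 * (φ : ℤ)) * hα + (2 * (φ : ℤ) * x + β * y - μ) * e1 - k1 + y ^ 2 * k2
  have e4 : 4 * α * g - x ^ 2 = f := by
    apply mul_left_cancel₀ hn.ne'
    linear_combination (4 * (g : ℤ)) * hα + ((β : ℤ) * x + 2 * g * y - ν) * e2 - k4 + x ^ 2 * k2
  have e5 : x * y + 2 * α * β = ee := by
    apply mul_left_cancel₀ hn.ne'
    linear_combination (2 * (β : ℤ)) * hα + ((β : ℤ) * x + 2 * g * y) * e1 - μ * e2 - k3 -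
      x * y * k2
  have e6 : 2 * α * n1 + x * μ + y * ν = 10 := by
    linear_combination 2 * hα + x * e1 + y * e2
  have hf0 : (0 : ℤ) < f := by
    have h1 : (0 : ℤ) < 4 * φ * g := by rw [k2]; positivity
    have hg0 : (0 : ℤ) < g := (mul_pos_iff_of_pos_left (by linarith : (0 : ℤ) < 4 * φ)).1 h1
    have h2 : (0 : ℤ) < n1 * f := by rw [k4]; positivity
    exact (mul_pos_iff_of_pos_left hn).1 h2
  refine ⟨!![2 * α, x, y; x, 2 * g, -β; y, -β, 2 * φ], ⟨?_, ?_, ?_, ?_, ?_, ?_, ?_⟩, ?_⟩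
  · ext i j
    fin_cases i <;> fin_cases j <;> rfl
  · show 0 < 2 * α
    linarith
  · show 0 < 2 * α * (2 * g) - x ^ 2
    have : 2 * α * (2 * g) - x ^ 2 = f := by rw [← e4]; ring
    rw [this]
    exact hf0
  · rw [det_fin_three]
    show 2 * α * (2 * g) * (2 * φ) - 2 * α * (-β) * (-β) - x * x * (2 * φ) + x * (-β) * y +
      y * x * (-β) - y * (2 * g) * y = 10
    linear_combination (2 * α) * k2 - x * e1 - y * e2 + e6
  · exact ⟨α, rfl⟩
  · exact ⟨g, rfl⟩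
  · exact ⟨φ, rfl⟩
  · rw [adjugate_fin_three]
    ext i j
    fin_cases i <;> fin_cases j
    · show 2 * (g : ℤ) * (2 * φ) - (-β) * (-β) = n1
      linear_combination k2
    · show -(x * (2 * φ)) + y * (-β) = (μ : ℤ)
      linear_combination -e1
    · show x * (-β) - y * (2 * g) = (ν : ℤ)
      linear_combination -e2
    · show -(x * (2 * φ)) + (-β) * y = (μ : ℤ)
      linear_combination -e1
    · show 2 * α * (2 * φ) - y * y = (d : ℤ)
      linear_combination e3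
    · show -(2 * α * (-β)) + y * x = (ee : ℤ)
      linear_combination e5
    · show x * (-β) - 2 * g * y = (ν : ℤ)
      linear_combination -e2
    · show -(2 * α * (-β)) + x * y = (ee : ℤ)
      linear_combination e5
    · show 2 * α * (2 * g) - x * x = (f : ℤ)
      linear_combination e4

theorem card_frG {n1 : ℕ} (hs : Squarefree n1) (h2 : Nat.Coprime n1 2) (b : ℤ) (Q : ℕ) :
    Nat.card (Fr n1 b Q) = 6 * (XX n1 b Q).card := by
  have h1 : ∀ x : {x : ℕ × ℕ × ℕ × ℕ // x ∈ XX n1 b Q},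
      Nat.card {A : Matrix (Fin 3) (Fin 3) ℤ // Aᵀ * GG * A = mm n1 Q x.1 ∧ A.det = 1} = 6 := by
    rintro ⟨⟨e, μ, β, ν⟩, hx⟩
    obtain ⟨M, hM, hM2⟩ := mm_posG hs h2 hx
    rw [← hM2]
    exact t_TORS M hM
  haveI : ∀ x : {x : ℕ × ℕ × ℕ × ℕ // x ∈ XX n1 b Q},
      Finite {A : Matrix (Fin 3) (Fin 3) ℤ // Aᵀ * GG * A = mm n1 Q x.1 ∧ A.det = 1} := fun x =>
    Nat.finite_of_card_ne_zero (by rw [h1 x]; norm_num)
  rw [Nat.card_sigma, Finset.sum_congr rfl (fun x _ => h1 x), Finset.sum_const, smul_eq_mul,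
    Finset.card_univ, Fintype.card_coe, mul_comm]

/-- CNT for all odd squarefree norms -/
theorem t_CNTG {n1 n2 Q : ℕ} {b : ℤ} (hs : Squarefree n1) (h2 : Nat.Coprime n1 2) (hQ0 : 0 < Q)
    (hDD : 20 * (Q : ℤ) = n1 * n2 - b ^ 2) :
    Nat.card (Pairs n1 n2 b) = 6 * (XX n1 b Q).card := by
  rw [← card_frG hs h2 b Q]
  symm
  refine Nat.card_eq_of_bijective (fun p : Fr n1 b Q => (⟨toPair b n1 p.1.1 p.2.1,
    toPair_mem hDD p.1.2 p.2.2.1⟩ : Pairs n1 n2 b)) ⟨?_, ?_⟩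
  · rintro ⟨⟨⟨e, μ, β, ν⟩, hx⟩, ⟨A, hA⟩⟩ ⟨⟨⟨e', μ', β', ν'⟩, hx'⟩, ⟨A', hA'⟩⟩ heq
    have h1 := congrArg Subtype.val heq
    obtain ⟨h2, h3⟩ := toPair_inj hx hx' hA.1 hA.2 hA'.1 hA'.2 h1
    simp only [Prod.mk.injEq] at h2
    obtain ⟨rfl, rfl, rfl, rfl⟩ := h2
    subst h3
    rfl
  · rintro ⟨⟨v, w⟩, hv, hw, hvw⟩
    obtain ⟨x, A, hx, hA, hp⟩ := toPair_surj hs hQ0 hDD hv hw hvw
    exact ⟨⟨⟨x, hx⟩, ⟨A, hA⟩⟩, Subtype.ext hp⟩

end Pool.Agent.N575.P15.PC5
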