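import Mathlib
import Pool.Agent.N575.P15.PC5a

/-!
# The number of pairs with given Gram matrix for a norm divisible by five
-/

set_option autoImplicit false

namespace Pool.Agent.N575.P15.PC5

open Finset
open Pool.Agent.Z700 (hh fac)
open Pool.Agent.Y155.Z7 (C C_eq C_prod S S_unram S_ram)
open Pool.Agent.N969.P15 (ip vec cp tw)
open Pool.Agent.Y288.Z7 (crs crs0 crs1 crs2 dt dt_crs_left)
open Pool.Agent.N972.PC15

variable {e D' β γ : ℕ} {b : ℤ}

/-- the number of `(μ, ν)` modulo `5` when `5` divides `b`, `D'`, `β` and `γ` -/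
theorem C_five (hb : (5 : ℤ) ∣ b) (hD : 5 ∣ D') (hβ : 5 ∣ β) (hγ : 5 ∣ γ) :
    C e b D' β γ 5 = 1 := by
  have : Fact (Nat.Prime 5) := ⟨by norm_num⟩
  have f1 : (D' : ZMod 5) = 0 := (ZMod.natCast_eq_zero_iff _ _).2 hD
  have f2 : (β : ZMod 5) = 0 := (ZMod.natCast_eq_zero_iff _ _).2 hβ
  have f3 : (γ : ZMod 5) = 0 := (ZMod.natCast_eq_zero_iff _ _).2 hγ
  have f4 : (b : ZMod 5) = 0 := (ZMod.intCast_zmod_eq_zero_iff_dvd b 5).2 hb
  unfold C
  rw [Nat.card_eq_one_iff_unique]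
  refine ⟨⟨fun x y => Subtype.ext ?_⟩, ⟨⟨(0, 0), ?_, ?_, ?_, ?_⟩⟩⟩
  · obtain ⟨x1, x2, x3, x4⟩ := x.2
    obtain ⟨y1, y2, y3, y4⟩ := y.2
    rw [f1, add_zero] at x2 y2
    rw [f3, zero_add] at x4 y4
    have hx1 := (pow_eq_zero_iff two_ne_zero).1 x2
    have hy1 := (pow_eq_zero_iff two_ne_zero).1 y2
    have hx2 := (pow_eq_zero_iff two_ne_zero).1 x4
    have hy2 := (pow_eq_zero_iff two_ne_zero).1 y4
    exact Prod.ext (hx1.trans hy1.symm) (hx2.trans hy2.symm)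
  · change (e : ZMod 5) * 0 - b = 0
    rw [f4]; ring
  · change (0 : ZMod 5) ^ 2 + (D' : ZMod 5) = 0
    rw [f1]; ring
  · change (β : ZMod 5) + 0 * 0 = 0
    rw [f2]; ring
  · change (γ : ZMod 5) + 0 ^ 2 = 0
    rw [f3]; ring

/-- the number of parameters -/
theorem t_XC5 {n1 n2 k Q : ℕ} {b : ℤ} (hs : Squarefree n1) (h5 : 5 ∣ n1)
    (hk : n1 + 1 = 4 * k) (hQ : 0 < Q) (hDD : 20 * (Q : ℤ) = n1 * n2 - b ^ 2) :
    ((XX n1 b Q).card : ℤ) = (U k Q : ℤ) *
      ∏ l ∈ n1.primeFactors.erase 5, (if l ∣ 20 * Q then 1 + hh n1 (20 * Q) l else 1) := by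
  have hn1 : 0 < n1 := Nat.pos_of_ne_zero hs.ne_zero
  have hdvd : ∀ l, l.Prime → l ∣ n1 → l ≠ 5 → ¬ l ∣ 10 ∧ ¬ l ^ 2 ∣ n1 := by
    intro l hp hl hl5
    refine ⟨fun h => ?_, ?_⟩
    · have h10 : (10 : ℕ) = 2 * 5 := by norm_num
      rw [h10] at h
      rcases hp.dvd_mul.1 h with h | h
      · have := (Nat.prime_dvd_prime_iff_eq hp Nat.prime_two).1 h
        subst this
        omega
      · exact hl5 ((Nat.prime_dvd_prime_iff_eq hp (by norm_num)).1 h)
    · intro h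
      rw [pow_two] at h
      exact hp.one_lt.ne' (Nat.isUnit_iff.1 (hs l h))
  have hD0 : 0 < 20 * Q := by omega
  have hDD' : ((20 * Q : ℕ) : ℤ) = n1 * n2 - b ^ 2 := by
    push_cast
    exact hDD
  have hb5 : (5 : ℤ) ∣ b := by
    have p5 : Prime (5 : ℤ) := by norm_num
    apply p5.dvd_of_dvd_pow (n := 2)
    obtain ⟨c, hc⟩ := h5
    refine ⟨c * n2 - 4 * Q, ?_⟩
    rw [hc] at hDD
    push_cast at hDD
    linear_combination hDD
  have h5m : 5 ∈ n1.primeFactors := Nat.mem_primeFactors.2 ⟨by norm_num, h5, hn1.ne'⟩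
  -- the fibres
  have h1 : ∀ t ∈ TT n1 Q, (((XX n1 b Q).filter fun q => (q.1, q.2.2.1) = t).card : ℤ) =
      ∏ l ∈ n1.primeFactors.erase 5, if l ∣ 20 * Q then 1 + hh n1 (20 * Q) l else 1 := by
    intro t ht
    obtain ⟨g1, g2, g3, g4, g5⟩ := (mem_TT n1 Q t).1 ht
    have hφ : 0 < Q / t.1 ^ 2 := Nat.div_pos (Nat.le_of_dvd hQ g3) (pow_pos g2 2)
    rw [fib n1 hn1 b Q t ht, C_prod _ _ _ _ _ (by omega : 0 < 20 * (Q / t.1 ^ 2)) hs,
      ← Finset.mul_prod_erase _ _ h5m,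
      C_five hb5 ⟨4 * (Q / t.1 ^ 2), by ring⟩ ⟨2 * t.2, by ring⟩
        ⟨4 * ((t.2 ^ 2 + n1) / (4 * (Q / t.1 ^ 2))), by ring⟩, one_mul, Nat.cast_prod]
    refine Finset.prod_congr rfl fun l hl => ?_
    have hle := Finset.mem_erase.1 hl
    have hl1 := Nat.prime_of_mem_primeFactors hle.2
    have hl2 := Nat.dvd_of_mem_primeFactors hle.2
    have hl10 := (hdvd l hl1 hl2 hle.1).1
    refine C_local (n2 := n2) hl1 ?_ hl10 hl2 (hdvd l hl1 hl2 hle.1).2 hD0 hDD' ?_ ?_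
    · rintro rfl
      exact hl10 (by norm_num)
    · rw [mul_left_comm, Nat.mul_div_cancel' g3]
    · have e1 := Nat.mul_div_cancel' g5
      generalize (t.2 ^ 2 + n1) / (4 * (Q / t.1 ^ 2)) = g at e1 ⊢
      have : 20 * (Q / t.1 ^ 2) * (20 * g) = 100 * (4 * (Q / t.1 ^ 2) * g) := by ring
      rw [this, e1]
      ring
  rw [Finset.card_eq_sum_card_fiberwise (f := fun q => (q.1, q.2.2.1)) (t := TT n1 Q),
    Nat.cast_sum, Finset.sum_congr rfl h1, Finset.sum_const, nsmul_eq_mul, card_TT hk Q hQ]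
  intro q hq
  have hq := Finset.mem_coe.1 hq
  unfold XX at hq
  have hq := Finset.mem_filter.1 hq
  have hq3 := Finset.mem_product.1 hq.1
  exact Finset.mem_coe.2 ((mem_TT n1 Q _).2 ⟨Finset.mem_range.1 hq3.1, hq.2.1, hq.2.2.1,
    hq.2.2.2.1, hq.2.2.2.2.2.2.1⟩)

theorem prod_fac5 {n1 Q : ℕ} (hn1 : 0 < n1) (hQ : 0 < Q) (h2 : ¬ 2 ∣ n1) :
    (∏ l ∈ ((20 * Q).primeFactors.erase 2).erase 5, (if l ∣ n1 then (1 : ℤ) else
        ∑ j ∈ range ((20 * Q).factorization l + 1), (jacobiSym (-(n1 : ℤ)) l) ^ j)) *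
      ∏ l ∈ n1.primeFactors.erase 5, (if l ∣ 20 * Q then 1 + hh n1 (20 * Q) l else 1) =
    ∏ l ∈ ((20 * Q).primeFactors.erase 2).erase 5, fac n1 (20 * Q) l := by
  have h4 : ∏ l ∈ n1.primeFactors.erase 5, (if l ∣ 20 * Q then 1 + hh n1 (20 * Q) l else 1) =
      ∏ l ∈ ((20 * Q).primeFactors.erase 2).erase 5,
        (if l ∣ n1 then 1 + hh n1 (20 * Q) l else 1) := by
    rw [← Finset.prod_filter, ← Finset.prod_filter]
    refine Finset.prod_congr ?_ fun _ _ => rfl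
    ext l
    rw [Finset.mem_filter, Finset.mem_filter, Finset.mem_erase, Finset.mem_erase, Finset.mem_erase,
      Nat.mem_primeFactors, Nat.mem_primeFactors]
    constructor
    · rintro ⟨⟨a0, a1, a2, _⟩, a4⟩
      refine ⟨⟨a0, ?_, a1, a4, by omega⟩, a2⟩
      rintro rfl; exact h2 a2
    · rintro ⟨⟨a0, _, a1, a4, _⟩, a2⟩
      exact ⟨⟨a0, a1, a2, hn1.ne'⟩, a4⟩
  rw [h4, ← Finset.prod_mul_distrib]
  refine Finset.prod_congr rfl fun l _ => ?_
  unfold fac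
  split_ifs with h
  · rw [one_mul]
  · rw [mul_one]

/-- the number of pairs, `5 ∣ n1` -/
theorem t_PC5 (n1 n2 : ℕ) (b : ℤ) (D : ℕ) (hs : Squarefree n1) (h3 : n1 % 4 = 3) (h5 : 5 ∣ n1)
    (hD : 0 < D) (hDD : (D : ℤ) = n1 * n2 - b ^ 2) :
    (cp n1 b n2 : ℤ) = if 5 ∣ D then
      6 * (tw n1 D * ∏ l ∈ (D.primeFactors.erase 2).erase 5, fac n1 D l) else 0 := by
  have hn1 : 0 < n1 := by omega
  obtain ⟨k, hk⟩ : ∃ k, n1 + 1 = 4 * k := ⟨(n1 + 1) / 4, by omega⟩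
  have h2 : Nat.Coprime n1 2 :=
    ((Nat.Prime.coprime_iff_not_dvd Nat.prime_two).2 (by omega)).symm
  rw [← card_pairs]
  by_cases h20 : 20 ∣ D
  · obtain ⟨Q, rfl⟩ := h20
    have hQ : 0 < Q := by omega
    have hDD' : 20 * (Q : ℤ) = n1 * n2 - b ^ 2 := by
      rw [← hDD]; push_cast; ring
    have hX := t_XC5 hs h5 hk hQ hDD'
    rw [U_all hs hk hQ, mul_assoc, prod_fac5 hn1 hQ (by omega)] at hX
    have hv2 : (20 * Q).factorization 2 = Q.factorization 2 + 2 := by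
      have e : 20 * Q = 2 ^ 2 * (5 * Q) := by ring
      rw [e, Nat.factorization_mul (by norm_num) (by omega), Finsupp.add_apply,
        Nat.Prime.factorization_pow Nat.prime_two, Finsupp.single_eq_same,
        Nat.factorization_mul (by norm_num) hQ.ne', Finsupp.add_apply,
        Nat.factorization_eq_zero_of_not_dvd (by norm_num : ¬ 2 ∣ 5)]
      ring
    have htw : tw n1 (20 * Q) = ∑ j ∈ range (Q.factorization 2 + 1), sg2 k ^ j := by
      unfold tw sg2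
      rw [hv2]
      have e1 : Q.factorization 2 + 2 - 1 = Q.factorization 2 + 1 := by omega
      have e2 : (n1 % 8 = 7) ↔ (k % 2 = 0) := by omega
      rw [e1]
      refine Finset.sum_congr rfl fun j _ => ?_
      simp only [e2]
    have h55 := U_fac hs hk 5 (by norm_num) (by norm_num) (Q.factorization 5)
    rw [if_pos h5] at h55
    rw [t_CNTG hs h2 hQ hDD', if_pos ⟨4 * Q, by ring⟩]
    push_cast
    rw [hX, h55, ← htw]
    ring
  · rw [no_pairs hDD h20]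
    split_ifs with h5D
    · have h4D : ¬ 4 ∣ D := by
        intro h4
        exact h20 (Nat.Coprime.mul_dvd_of_dvd_of_dvd (by norm_num : Nat.Coprime 4 5) h4 h5D)
      have h2 : D.factorization 2 - 1 = 0 := by
        have : ¬ 2 ≤ D.factorization 2 := by
          intro h2
          exact h4D ((Nat.Prime.pow_dvd_iff_le_factorization Nat.prime_two hD.ne').2 h2)
        omega
      unfold tw
      rw [h2]
      simp
    · simp

/-! ### the Hilbert symbol at five -/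

theorem J5 (a : ℤ) (h : (a : ZMod 5) = 2 ∨ (a : ZMod 5) = 3) : jacobiSym a 5 = -1 := by
  have h0 : a % ((5 : ℕ) : ℤ) = 2 ∨ a % ((5 : ℕ) : ℤ) = 3 := by
    rcases h with h | h
    · left
      exact (ZMod.intCast_eq_intCast_iff' a 2 5).1 (by rw [h]; rfl)
    · right
      exact (ZMod.intCast_eq_intCast_iff' a 3 5).1 (by rw [h]; rfl)
  rcases h0 with h0 | h0
  · rw [jacobiSym.mod_left, h0]
    norm_num
  · rw [jacobiSym.mod_left, h0]
    norm_num

theorem chk1 : ∀ v1 v2 x y : ZMod 5, x * v1 + y * v2 = 0 → x * x + x * y + y * y ≠ 0 →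
    v1 * v1 - v1 * v2 + v2 * v2 ≠ 0 →
    -(3 * (v1 * v1 - v1 * v2 + v2 * v2) * (4 * (x * x + x * y + y * y))) = 2 ∨
    -(3 * (v1 * v1 - v1 * v2 + v2 * v2) * (4 * (x * x + x * y + y * y))) = 3 := by
  decide

theorem chk2 : ∀ x y : ZMod 5, x * x + x * y + y * y = 0 → x = 0 ∧ y = 0 := by
  decide

theorem chk3 : ∀ x : ZMod 5, x ≠ 0 → 2 * (x * x) = 2 ∨ 2 * (x * x) = 3 := by
  decide

theorem chk4 : ∀ a b : ZMod 5, 3 * a = 4 * b → a = 3 * b := by
  decide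

/-- a vector of norm divisible by five exactly once determines the symbol at five -/
theorem hh_five {n1 D : ℕ} {n2 b : ℤ} (hs : Squarefree n1) (h5 : 5 ∣ n1) (hD0 : 0 < D)
    (hDD : (D : ℤ) = n1 * n2 - b ^ 2) {v w : Fin 3 → ℤ} (hv : gi v v = n1) (hw : gi w w = n2)
    (hvw : gi v w = b) : hh n1 D 5 = -1 := by
  have p5 : Prime (5 : ℤ) := by norm_num
  obtain ⟨m, hm⟩ := h5
  have hm5 : ¬ 5 ∣ m := by
    rintro ⟨a, rfl⟩
    have := hs 5 ⟨a, by rw [hm]; ring⟩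
    rw [Nat.isUnit_iff] at this
    omega
  have hcc : 20 * ff (crs v w) = D := by
    have h1 := lag_g2 v w
    rw [hv, hw, hvw, ← hDD] at h1
    exact h1.symm
  have hc0 : crs v w ≠ 0 := by
    intro h0
    rw [h0] at hcc
    simp only [ff, Pi.zero_apply] at hcc
    have : (D : ℤ) = 0 := by rw [← hcc]; norm_num
    have : D = 0 := by exact_mod_cast this
    omega
  obtain ⟨e, c, z0, he, hce, hz0⟩ := Pool.Agent.Y288.Z7.content (crs v w) hc0
  have heZ : (0 : ℤ) < e := by exact_mod_cast he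
  have hcv : dt c v = 0 := by
    have h1 := dt_crs_left v w
    rw [hce, Pool.Agent.Y288.Z7.smul_dt] at h1
    exact (mul_eq_zero.1 h1).resolve_left heZ.ne'
  rw [hce, ff_smul] at hcc
  -- the vector
  have hu0 := three_gi v
  rw [hv] at hu0
  have hu : (5 : ℤ) ∣ 3 * v 0 - v 1 - v 2 := by
    apply p5.dvd_of_dvd_pow (n := 2)
    refine ⟨3 * m - 4 * (v 1 ^ 2 - v 1 * v 2 + v 2 ^ 2), ?_⟩
    rw [hm] at hu0
    push_cast at hu0
    linear_combination -hu0
  obtain ⟨u, hu⟩ := hu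
  have hq : 3 * (m : ℤ) = 5 * u ^ 2 + 4 * (v 1 ^ 2 - v 1 * v 2 + v 2 ^ 2) := by
    rw [hm, hu] at hu0
    push_cast at hu0
    linarith
  have z5 : (5 : ZMod 5) = 0 := rfl
  have g1 : (m : ZMod 5) = 3 * ((v 1 : ZMod 5) * v 1 - v 1 * v 2 + v 2 * v 2) := by
    apply chk4
    have := congrArg (fun z : ℤ => (z : ZMod 5)) hq
    push_cast at this
    rw [z5, zero_mul, zero_add] at this
    linear_combination this
  have g2 : (v 1 : ZMod 5) * v 1 - v 1 * v 2 + v 2 * v 2 ≠ 0 := by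
    intro h
    rw [h, mul_zero] at g1
    exact hm5 ((ZMod.natCast_eq_zero_iff _ _).1 g1)
  have g3 : 3 * (v 0 : ZMod 5) = v 1 + v 2 := by
    have := congrArg (fun z : ℤ => (z : ZMod 5)) hu
    push_cast at this
    rw [z5, zero_mul] at this
    linear_combination this
  have g4 : ((c 1 : ZMod 5) + 2 * c 0) * v 1 + ((c 2 : ZMod 5) + 2 * c 0) * v 2 = 0 := by
    have := congrArg (fun z : ℤ => (z : ZMod 5)) hcv
    simp only [dt] at this
    push_cast at this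
    have z6 : (6 : ZMod 5) = 1 := rfl
    linear_combination this - 2 * (c 0 : ZMod 5) * g3 + (c 0 : ZMod 5) * v 0 * z5
  have g5 : (ff c : ZMod 5) = ((c 1 : ZMod 5) + 2 * c 0) * (c 1 + 2 * c 0) +
      (c 1 + 2 * c 0) * (c 2 + 2 * c 0) + (c 2 + 2 * c 0) * (c 2 + 2 * c 0) := by
    simp only [ff]
    push_cast
    linear_combination (-(c 0 : ZMod 5) * c 1 - (c 0 : ZMod 5) * c 2 - 2 * (c 0 : ZMod 5) * c 0) * z5
  obtain ⟨F, hF⟩ : ∃ F : ℕ, (F : ℤ) = ff c := ⟨_, Int.toNat_of_nonneg (ff_nonneg c)⟩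
  have g5' : (F : ZMod 5) = ((c 1 : ZMod 5) + 2 * c 0) * (c 1 + 2 * c 0) +
      (c 1 + 2 * c 0) * (c 2 + 2 * c 0) + (c 2 + 2 * c 0) * (c 2 + 2 * c 0) := by
    rw [← g5, ← hF]
    push_cast
    rfl
  rw [← hF] at hcc
  have hcc' : D = e ^ 2 * (20 * F) := by
    have : ((e ^ 2 * (20 * F) : ℕ) : ℤ) = D := by
      push_cast
      rw [← hcc]; ring
    exact_mod_cast this.symm
  by_cases hF5 : 5 ∣ F
  · -- the even case
    have h0 : ((c 1 : ZMod 5) + 2 * c 0) * (c 1 + 2 * c 0) +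
      (c 1 + 2 * c 0) * (c 2 + 2 * c 0) + (c 2 + 2 * c 0) * (c 2 + 2 * c 0) = 0 := by
      rw [← g5']
      exact (ZMod.natCast_eq_zero_iff _ _).2 hF5
    obtain ⟨k1, k2⟩ := chk2 _ _ h0
    have hx : (5 : ℤ) ∣ c 1 + 2 * c 0 := by
      apply (ZMod.intCast_zmod_eq_zero_iff_dvd _ 5).1
      push_cast
      exact k1
    have hy : (5 : ℤ) ∣ c 2 + 2 * c 0 := by
      apply (ZMod.intCast_zmod_eq_zero_iff_dvd _ 5).1
      push_cast
      exact k2
    obtain ⟨x, hx⟩ := hx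
    obtain ⟨y, hy⟩ := hy
    obtain ⟨G, hG⟩ := hF5
    have h1 : (G : ℤ) = 5 * (x * x + x * y + y * y) - 5 * c 0 * (x + y) + 2 * c 0 ^ 2 := by
      have h2 : (5 : ℤ) * G = ff c := by
        rw [← hF, hG]
        push_cast
        ring
      have e1 : c 1 = 5 * x - 2 * c 0 := by linarith
      have e2 : c 2 = 5 * y - 2 * c 0 := by linarith
      simp only [ff, e1, e2] at h2
      apply mul_left_cancel₀ (by norm_num : (5 : ℤ) ≠ 0)
      linear_combination h2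
    have hG2 : (G : ZMod 5) = 2 * ((c 0 : ZMod 5) * c 0) := by
      have := congrArg (fun z : ℤ => (z : ZMod 5)) h1
      push_cast at this
      rw [this]
      linear_combination ((x * x + x * y + y * y : ZMod 5) - c 0 * (x + y)) * z5
    have hc05 : (c 0 : ZMod 5) ≠ 0 := by
      intro h
      have hd0 : (5 : ℤ) ∣ c 0 := (ZMod.intCast_zmod_eq_zero_iff_dvd _ _).1 h
      have hd1 : (5 : ℤ) ∣ c 1 := by omega
      have hd2 : (5 : ℤ) ∣ c 2 := by omega
      have : (5 : ℤ) ∣ dt c z0 := by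
        simp only [dt]
        exact Dvd.dvd.add (Dvd.dvd.add (hd0.mul_right _) (hd1.mul_right _)) (hd2.mul_right _)
      rw [hz0] at this
      omega
    have hG5 : ¬ 5 ∣ 4 * G := by
      intro h
      have h' : 5 ∣ G := by omega
      have h3 : (G : ZMod 5) = 0 := (ZMod.natCast_eq_zero_iff _ _).2 h'
      rw [hG2] at h3
      have h4 := chk3 _ hc05
      rw [h3] at h4
      revert h4
      decide
    rw [Pool.Agent.Y155.Z7.hh_even 5 (by norm_num) n1 (5 * e) (4 * G) D (by rw [hcc', hG]; ring) hD0 hG5]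
    apply J5
    push_cast
    rw [hG2]
    have h4 := chk3 _ hc05
    have : -(4 * (2 * ((c 0 : ZMod 5) * c 0))) = 2 * ((c 0 : ZMod 5) * c 0) := by
      linear_combination (-2 * ((c 0 : ZMod 5) * c 0)) * z5
    rw [this]
    exact h4
  · -- the odd case
    have h0 : ((c 1 : ZMod 5) + 2 * c 0) * (c 1 + 2 * c 0) +
      (c 1 + 2 * c 0) * (c 2 + 2 * c 0) + (c 2 + 2 * c 0) * (c 2 + 2 * c 0) ≠ 0 := by
      rw [← g5']
      exact fun h => hF5 ((ZMod.natCast_eq_zero_iff _ _).1 h)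
    have hF4 : ¬ 5 ∣ 4 * F := by omega
    rw [Pool.Agent.Y155.Z7.hh_odd 5 (by norm_num) n1 e (4 * F) D (by rw [hcc']; ring) hD0 hF4]
    apply J5
    have hmm : n1 / 5 = m := by rw [hm]; exact Nat.mul_div_cancel_left m (by norm_num)
    rw [hmm]
    push_cast
    rw [g1, g5']
    exact chk1 _ _ _ _ g4 h0 g2

/-- the number of pairs, `5 ∣ n1`, with the condition at five -/
theorem t_PC5' (n1 n2 : ℕ) (b : ℤ) (D : ℕ) (hs : Squarefree n1) (h3 : n1 % 4 = 3) (h5 : 5 ∣ n1)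
    (hD : 0 < D) (hDD : (D : ℤ) = n1 * n2 - b ^ 2) :
    (cp n1 b n2 : ℤ) = if 5 ∣ D ∧ hh n1 D 5 = -1 then
      6 * (tw n1 D * ∏ l ∈ (D.primeFactors.erase 2).erase 5, fac n1 D l) else 0 := by
  have h0 := t_PC5 n1 n2 b D hs h3 h5 hD hDD
  by_cases h : 5 ∣ D ∧ hh n1 D 5 = -1
  · rw [if_pos h]
    rw [if_pos h.1] at h0
    exact h0
  · rw [if_neg h]
    by_contra hne
    have h1 : cp n1 b n2 ≠ 0 := by
      intro h2
      rw [h2] at hne
      exact hne rfl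
    unfold cp at h1
    obtain ⟨q, hq⟩ := Finset.card_ne_zero.1 h1
    rw [Finset.mem_filter, Finset.mem_product, mem_vec, mem_vec, ip_eq] at hq
    obtain ⟨⟨hv, hw⟩, hvw⟩ := hq
    have h4 : 5 ∣ D := by
      by_contra h5D
      rw [if_neg h5D] at h0
      exact hne h0
    exact h ⟨h4, hh_five hs h5 hD hDD hv hw hvw⟩

end Pool.Agent.N575.P15.PC5
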