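import Mathlib
import Pool.Agent.N969.P15.Defs

/-!
# The Hecke relations at `2` for the ternary form of determinant `100`
-/

set_option autoImplicit false

namespace Pool.Agent.N575.P15

open Finset Pool.Agent.N969.P15

/-- positivity: a vector of norm `n` lies in the box -/
theorem sq_le (v : V3) (i : Fin 3) : v i ^ 2 ≤ ip v v := by
  fin_cases i
  · show v 0 ^ 2 ≤ ip v v
    unfold ip
    nlinarith [sq_nonneg (2 * v 0 - v 1 - v 2), sq_nonneg (v 1 - v 2), sq_nonneg (v 1),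
      sq_nonneg (v 2)]
  · show v 1 ^ 2 ≤ ip v v
    unfold ip
    nlinarith [sq_nonneg (3 * v 0 - v 1 - v 2), sq_nonneg (v 1 - v 2), sq_nonneg (v 1),
      sq_nonneg (v 2)]
  · show v 2 ^ 2 ≤ ip v v
    unfold ip
    nlinarith [sq_nonneg (3 * v 0 - v 1 - v 2), sq_nonneg (v 1 - v 2), sq_nonneg (v 1),
      sq_nonneg (v 2)]

theorem mem_vec (n : ℤ) (v : V3) : v ∈ vec n ↔ ip v v = n := by
  unfold vec
  rw [mem_filter, Fintype.mem_piFinset]
  constructor
  · exact fun h => h.2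
  · intro h
    refine ⟨fun i => ?_, h⟩
    have h1 := sq_le v i
    rw [h] at h1
    rw [mem_Icc]
    constructor
    · nlinarith [Int.le_self_sq (-(v i)), sq_nonneg (v i)]
    · nlinarith [Int.le_self_sq (v i), sq_nonneg (v i)]

/-- the basic similitude -/
def m0 (v : V3) : V3 := ![-2 * v 0, -v 0 + 2 * v 2, -v 0 + 2 * v 1]

/-- the rotation of order three -/
def ro (v : V3) : V3 := ![v 0 - v 2, -v 2, v 1 - v 2]

/-- its inverse -/
def ri (v : V3) : V3 := ![v 0 - v 1, v 2 - v 1, -v 1]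

@[simp] theorem m0_0 (v : V3) : m0 v 0 = -2 * v 0 := rfl
@[simp] theorem m0_1 (v : V3) : m0 v 1 = -v 0 + 2 * v 2 := rfl
@[simp] theorem m0_2 (v : V3) : m0 v 2 = -v 0 + 2 * v 1 := rfl
@[simp] theorem ro_0 (v : V3) : ro v 0 = v 0 - v 2 := rfl
@[simp] theorem ro_1 (v : V3) : ro v 1 = -v 2 := rfl
@[simp] theorem ro_2 (v : V3) : ro v 2 = v 1 - v 2 := rfl
@[simp] theorem ri_0 (v : V3) : ri v 0 = v 0 - v 1 := rfl
@[simp] theorem ri_1 (v : V3) : ri v 1 = v 2 - v 1 := rfl
@[simp] theorem ri_2 (v : V3) : ri v 2 = -v 1 := rfl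

theorem ext3 {v w : V3} (h0 : v 0 = w 0) (h1 : v 1 = w 1) (h2 : v 2 = w 2) : v = w := by
  funext i
  fin_cases i
  · exact h0
  · exact h1
  · exact h2

theorem ip_m0 (v : V3) : ip (m0 v) (m0 v) = 4 * ip v v := by
  simp only [ip, m0_0, m0_1, m0_2]; ring

theorem ip_ro (v : V3) : ip (ro v) (ro v) = ip v v := by
  simp only [ip, ro_0, ro_1, ro_2]; ring

theorem ro_ri (v : V3) : ro (ri v) = v :=
  ext3 (by simp) (by simp) (by simp)

theorem ri_ro (v : V3) : ri (ro v) = v :=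
  ext3 (by simp) (by simp) (by simp)

theorem ip_ri (v : V3) : ip (ri v) (ri v) = ip v v := by
  rw [← ip_ro (ri v), ro_ri]

theorem m0_m0 (v : V3) : m0 (m0 v) = fun i => 4 * v i :=
  ext3 (by simp; ring) (by simp; ring) (by simp; ring)

theorem m0_inj {v w : V3} (h : m0 v = m0 w) : v = w := by
  have h1 := congrArg m0 h
  rw [m0_m0, m0_m0] at h1
  refine ext3 ?_ ?_ ?_
  · have := congrFun h1 0; simp at this; exact this
  · have := congrFun h1 1; simp at this; exact this
  · have := congrFun h1 2; simp at this; exact this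

/-- rotation invariance of counts -/
theorem card_ro (n : ℤ) (P : V3 → Prop) [DecidablePred P] :
    ((vec n).filter fun v => P (ro v)).card = ((vec n).filter P).card := by
  refine card_bij (fun v _ => ro v) ?_ ?_ ?_
  · intro v hv
    rw [mem_filter, mem_vec] at hv ⊢
    exact ⟨by rw [ip_ro]; exact hv.1, hv.2⟩
  · intro v _ w _ h
    rw [← ri_ro v, ← ri_ro w, h]
  · intro w hw
    rw [mem_filter, mem_vec] at hw
    refine ⟨ri w, ?_, ro_ri w⟩
    rw [mem_filter, mem_vec, ip_ri, ro_ri]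
    exact hw

/-- the image of the basic similitude -/
def A0 (w : V3) : Prop := (2 : ℤ) ∣ w 0 ∧ (4 : ℤ) ∣ w 0 - 2 * w 1 ∧ (4 : ℤ) ∣ w 0 - 2 * w 2

instance : DecidablePred A0 := fun w => by unfold A0; infer_instance

theorem card_m0 (n : ℤ) (P : V3 → Prop) [DecidablePred P] :
    ((vec n).filter fun v => P (m0 v)).card = ((vec (4 * n)).filter fun w => P w ∧ A0 w).card := by
  refine card_bij (fun v _ => m0 v) ?_ ?_ ?_
  · intro v hv
    rw [mem_filter, mem_vec] at hv ⊢
    refine ⟨by rw [ip_m0, hv.1], hv.2, ?_, ?_, ?_⟩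
    · simp only [m0_0]; omega
    · simp only [m0_0, m0_1]; omega
    · simp only [m0_0, m0_2]; omega
  · intro v _ w _ h
    exact m0_inj h
  · intro w hw
    rw [mem_filter, mem_vec] at hw
    obtain ⟨h1, h2, h3, h4, h5⟩ := hw
    obtain ⟨a, ha⟩ := h3
    obtain ⟨b, hb⟩ := h4
    obtain ⟨c, hc⟩ := h5
    have e0 : (-a : ℤ) * -2 = w 0 := by omega
    have hm : m0 ![-a, -c, -b] = w := by
      refine ext3 ?_ ?_ ?_
      · simp; omega
      · simp; omega
      · simp; omega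
    refine ⟨![-a, -c, -b], ?_, hm⟩
    rw [mem_filter, mem_vec]
    refine ⟨?_, by rw [hm]; exact h2⟩
    have h6 := ip_m0 ![-a, -c, -b]
    rw [hm, h1] at h6
    omega

/-- the vectors divisible by `2` -/
def E (w : V3) : Prop := (2 : ℤ) ∣ w 0 ∧ (2 : ℤ) ∣ w 1 ∧ (2 : ℤ) ∣ w 2

instance : DecidablePred E := fun w => by unfold E; infer_instance

theorem card_E (n : ℤ) (P : V3 → Prop) [DecidablePred P] (hP : ∀ v : V3, P (fun i => 2 * v i) ↔ P v) :
    ((vec (4 * n)).filter fun w => P w ∧ E w).card = ((vec n).filter P).card := by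
  symm
  refine card_bij (fun v _ => fun i => 2 * v i) ?_ ?_ ?_
  · intro v hv
    rw [mem_filter, mem_vec] at hv ⊢
    refine ⟨?_, (hP v).2 hv.2, ⟨_, rfl⟩, ⟨_, rfl⟩, ⟨_, rfl⟩⟩
    have h1 := hv.1
    unfold ip at h1 ⊢
    linear_combination 4 * h1
  · intro v _ w _ h
    funext i
    have := congrFun h i
    simp at this
    exact this
  · intro w hw
    rw [mem_filter, mem_vec] at hw
    obtain ⟨h1, h2, ⟨a, ha⟩, ⟨b, hb⟩, ⟨c, hc⟩⟩ := hw
    have hm : (fun i => 2 * (![a, b, c] : V3) i) = w := by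
      refine ext3 ?_ ?_ ?_
      · simp; omega
      · simp; omega
      · simp; omega
    refine ⟨![a, b, c], ?_, hm⟩
    rw [mem_filter, mem_vec]
    refine ⟨?_, by rw [← hP, hm]; exact h2⟩
    unfold ip at h1 ⊢
    rw [ha, hb, hc] at h1
    simp
    linarith

/-! ### finite checks -/

theorem check1 : ∀ a b c : Fin 8, ¬ (a.val % 2 = 0 ∧ b.val % 2 = 0 ∧ c.val % 2 = 0) →
    (3 * (a.val * a.val) + 7 * (b.val * b.val) + 7 * (c.val * c.val) + 14 * (a.val * b.val) +
      14 * (a.val * c.val) + 10 * (b.val * c.val)) % 16 = 12 →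
    (if a.val % 2 = 0 ∧ (a.val + 2 * b.val) % 4 = 0 ∧ (a.val + 2 * c.val) % 4 = 0 then (1 : ℕ)
      else 0) +
    (if c.val % 2 = 0 ∧ (a.val + b.val) % 4 = 0 then 1 else 0) +
    (if b.val % 2 = 0 ∧ (a.val + c.val) % 4 = 0 then 1 else 0) = 1 := by
  decide

theorem check2 : ∀ a b c : Fin 8,
    (3 * (a.val * a.val) + 7 * (b.val * b.val) + 7 * (c.val * c.val) + 14 * (a.val * b.val) +
      14 * (a.val * c.val) + 10 * (b.val * c.val)) % 4 = 3 →
    ((if a.val % 2 = 0 then (1 : ℤ) else 0) +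
    (if (a.val + b.val) % 2 = 0 then 1 else 0) +
    (if (a.val + c.val) % 2 = 0 then 1 else 0)) = 1 + (if (3 * (a.val * a.val) +
      7 * (b.val * b.val) + 7 * (c.val * c.val) + 14 * (a.val * b.val) +
      14 * (a.val * c.val) + 10 * (b.val * c.val)) % 8 = 7 then 1 else -1) := by
  decide

/-- reduction modulo `8` -/
theorem red (w : V3) : ∃ a b c : Fin 8, (∃ p q r : ℤ, w 0 = 8 * p + (a.val : ℤ) ∧
    w 1 = 8 * q + (b.val : ℤ) ∧ w 2 = 8 * r + (c.val : ℤ)) ∧ ∃ K : ℤ, ip w w =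
      ((3 * (a.val * a.val) + 7 * (b.val * b.val) + 7 * (c.val * c.val) + 14 * (a.val * b.val) +
      14 * (a.val * c.val) + 10 * (b.val * c.val) : ℕ) : ℤ) + 16 * K := by
  have key : ∀ x : ℤ, ∃ a : Fin 8, ∃ p : ℤ, x = 8 * p + (a.val : ℤ) := by
    intro x
    refine ⟨⟨(x % 8).toNat, by omega⟩, x / 8, ?_⟩
    show x = 8 * (x / 8) + ((x % 8).toNat : ℤ)
    omega
  obtain ⟨a, p, ha⟩ := key (w 0)
  obtain ⟨b, q, hb⟩ := key (w 1)
  obtain ⟨c, r, hc⟩ := key (w 2)
  refine ⟨a, b, c, ⟨p, q, r, ha, hb, hc⟩, 12 * p ^ 2 + 3 * p * a.val + 28 * q ^ 2 + 7 * q * b.val +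
    28 * r ^ 2 + 7 * r * c.val - 8 * p * q - p * b.val - q * a.val - a.val * b.val -
    8 * p * r - p * c.val - r * a.val - a.val * c.val - 24 * q * r - 3 * q * c.val -
    3 * r * b.val - b.val * c.val, ?_⟩
  unfold ip
  rw [ha, hb, hc]
  push_cast
  ring

theorem count1 {n : ℤ} (hn : n % 4 = 3) {w : V3} (hw : ip w w = 4 * n) (hE : ¬ E w) :
    (if A0 w then (1 : ℤ) else 0) + (if A0 (ri w) then 1 else 0) +
      (if A0 (ri (ri w)) then 1 else 0) = 1 := by
  obtain ⟨a, b, c, ⟨p, q, r, h0, h1, h2⟩, K, hK⟩ := red w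
  have h := check1 a b c (by
    intro hh
    apply hE
    unfold E
    omega) (by omega)
  have e1 : (A0 w) ↔ (a.val % 2 = 0 ∧ (a.val + 2 * b.val) % 4 = 0 ∧
      (a.val + 2 * c.val) % 4 = 0) := by
    unfold A0; omega
  have e2 : (A0 (ri w)) ↔ (c.val % 2 = 0 ∧ (a.val + b.val) % 4 = 0) := by
    unfold A0
    simp only [ri_0, ri_1, ri_2]
    omega
  have e3 : (A0 (ri (ri w))) ↔ (b.val % 2 = 0 ∧ (a.val + c.val) % 4 = 0) := by
    unfold A0
    simp only [ri_0, ri_1, ri_2]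
    omega
  simp only [e1, e2, e3]
  exact_mod_cast h

theorem count2 {n : ℕ} (hn : n % 4 = 3) {v : V3} (hv : ip v v = n) :
    (if A0 (fun i => 2 * v i) then (1 : ℤ) else 0) + (if A0 (ri (fun i => 2 * v i)) then 1 else 0) +
      (if A0 (ri (ri (fun i => 2 * v i))) then 1 else 0) = 1 + ep2 n := by
  obtain ⟨a, b, c, ⟨p, q, r, h0, h1, h2⟩, K, hK⟩ := red v
  have h := check2 a b c (by omega)
  have e1 : (A0 (fun i => 2 * v i)) ↔ (a.val % 2 = 0) := by
    unfold A0
    beta_reduce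
    omega
  have e2 : (A0 (ri (fun i => 2 * v i))) ↔ ((a.val + b.val) % 2 = 0) := by
    unfold A0
    simp only [ri_0, ri_1, ri_2]
    omega
  have e3 : (A0 (ri (ri (fun i => 2 * v i)))) ↔ ((a.val + c.val) % 2 = 0) := by
    unfold A0
    simp only [ri_0, ri_1, ri_2]
    omega
  simp only [e1, e2, e3, h, ep2]
  generalize (3 * (a.val * a.val) + 7 * (b.val * b.val) + 7 * (c.val * c.val) +
      14 * (a.val * b.val) + 14 * (a.val * c.val) + 10 * (b.val * c.val)) = X at hK ⊢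
  have e4 : (X % 8 = 7) ↔ n % 8 = 7 := by omega
  simp only [e4]

/-- the main counting identity -/
theorem main {n : ℕ} (hn : n % 4 = 3) (P : V3 → Prop) [DecidablePred P]
    (hP : ∀ v : V3, P (fun i => 2 * v i) ↔ P v) (hR : ∀ v : V3, P (ro v) ↔ P v) :
    3 * (((vec n).filter fun v => P (m0 v)).card : ℤ) =
      ((vec (4 * n)).filter P).card + ep2 n * ((vec n).filter P).card := by
  have s1 : ((vec (4 * n)).filter fun w => P w ∧ A0 w).card =
      ((vec (4 * n)).filter fun w => P w ∧ A0 (ri w)).card := by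
    rw [← card_ro (4 * n) (fun w => P w ∧ A0 (ri w))]
    congr 1
    ext w
    simp only [mem_filter, hR, ri_ro]
  have s2 : ((vec (4 * n)).filter fun w => P w ∧ A0 w).card =
      ((vec (4 * n)).filter fun w => P w ∧ A0 (ri (ri w))).card := by
    rw [s1, ← card_ro (4 * n) (fun w => P w ∧ A0 (ri (ri w)))]
    congr 1
    ext w
    simp only [mem_filter, hR, ri_ro]
  have s3 : ∀ Q : V3 → Prop, ∀ [DecidablePred Q],
      (((vec (4 * n)).filter fun w => P w ∧ Q w).card : ℤ) =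
      ∑ w ∈ (vec (4 * n)).filter P, if Q w then (1 : ℤ) else 0 := by
    intro Q _
    rw [← filter_filter, card_filter]
    push_cast
    rfl
  have s4 : 3 * (((vec n).filter fun v => P (m0 v)).card : ℤ) =
      ∑ w ∈ (vec (4 * n)).filter P, ((if A0 w then (1 : ℤ) else 0) +
        (if A0 (ri w) then 1 else 0) + (if A0 (ri (ri w)) then 1 else 0)) := by
    rw [sum_add_distrib, sum_add_distrib, ← s3 A0, ← s3 (fun w => A0 (ri w)),
      ← s3 (fun w => A0 (ri (ri w))), ← s1, ← s2, card_m0]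
    ring
  rw [s4]
  have s5 : ∀ w ∈ (vec (4 * n)).filter P, ((if A0 w then (1 : ℤ) else 0) +
        (if A0 (ri w) then 1 else 0) + (if A0 (ri (ri w)) then 1 else 0)) =
        1 + ep2 n * (if E w then 1 else 0) := by
    intro w hw
    rw [mem_filter, mem_vec] at hw
    by_cases hE : E w
    · obtain ⟨⟨a, ha⟩, ⟨b, hb⟩, ⟨c, hc⟩⟩ := id hE
      have hm : (fun i => 2 * (![a, b, c] : V3) i) = w := by
        refine ext3 ?_ ?_ ?_
        · simp; omega
        · simp; omega
        · simp; omega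
      have h1 := hw.1
      have h2 : ip ![a, b, c] ![a, b, c] = n := by
        unfold ip at h1 ⊢
        rw [ha, hb, hc] at h1
        simp
        linarith
      have h3 := count2 hn h2
      rw [hm] at h3
      rw [h3, if_pos hE]
      ring
    · rw [if_neg hE, count1 (n := n) (by omega) hw.1 hE]
      ring
  rw [sum_congr rfl s5, sum_add_distrib, ← mul_sum, ← s3 E, card_E n P hP]
  simp

/-! ### the isotropic lines modulo `3` -/

theorem check3 : ∀ a b c : ZMod 3, 3 * (a * a) + 7 * (b * b) + 7 * (c * c) - (a * b + b * a) -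
    (a * c + c * a) - 3 * (b * c + c * b) = 2 →
    (if b + c = 0 then (1 : ℕ) else 0) + (if -2 * a + 2 * b + 2 * c = 0 then 1 else 0) +
    (if -2 * (a - c) + 2 * (-c) + 2 * (b - c) = 0 then 1 else 0) +
    (if -2 * (a - b) + 2 * (-(b - c)) + 2 * (-c - (b - c)) = 0 then 1 else 0) = 2 := by
  decide

/-- orthogonality to the base line -/
def L (v : V3) : Prop := (3 : ℤ) ∣ v 1 + v 2

instance : DecidablePred L := fun w => by unfold L; infer_instance

theorem lines {n : ℤ} (hn : n % 3 = 2) {v : V3} (hv : ip v v = n) :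
    (if L v then (1 : ℤ) else 0) + (if L (m0 v) then 1 else 0) + (if L (m0 (ro v)) then 1 else 0) +
      (if L (m0 (ro (ro v))) then 1 else 0) = 2 := by
  have h := check3 (v 0 : ZMod 3) (v 1 : ZMod 3) (v 2 : ZMod 3) (by
    have h1 : ((ip v v : ℤ) : ZMod 3) = ((2 : ℤ) : ZMod 3) := by
      rw [ZMod.intCast_eq_intCast_iff, hv]
      exact hn
    unfold ip at h1
    push_cast at h1
    exact h1)
  have key : ∀ x : ℤ, (3 : ℤ) ∣ x ↔ (x : ZMod 3) = 0 := fun x =>
    ((ZMod.intCast_zmod_eq_zero_iff_dvd x 3)).symm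
  have e0 : L v ↔ (v 1 : ZMod 3) + (v 2 : ZMod 3) = 0 := by
    unfold L; rw [key]; push_cast; rfl
  have e1 : L (m0 v) ↔ -2 * (v 0 : ZMod 3) + 2 * (v 1 : ZMod 3) + 2 * (v 2 : ZMod 3) = 0 := by
    unfold L; rw [key]; simp only [m0_1, m0_2]; push_cast
    constructor <;> intro h <;> linear_combination h
  have e2 : L (m0 (ro v)) ↔ -2 * ((v 0 : ZMod 3) - (v 2 : ZMod 3)) + 2 * (-(v 2 : ZMod 3)) +
      2 * ((v 1 : ZMod 3) - (v 2 : ZMod 3)) = 0 := by
    unfold L; rw [key]; simp only [m0_1, m0_2, ro_0, ro_1, ro_2]; push_cast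
    constructor <;> intro h <;> linear_combination h
  have e3 : L (m0 (ro (ro v))) ↔ -2 * ((v 0 : ZMod 3) - (v 1 : ZMod 3)) +
      2 * (-((v 1 : ZMod 3) - (v 2 : ZMod 3))) +
      2 * (-(v 2 : ZMod 3) - ((v 1 : ZMod 3) - (v 2 : ZMod 3))) = 0 := by
    unfold L; rw [key]; simp only [m0_1, m0_2, ro_0, ro_1, ro_2]; push_cast
    constructor <;> intro h <;> linear_combination h
  simp only [e0, e1, e2, e3]
  exact_mod_cast h

theorem lines_sum {n : ℕ} (hn : n % 3 = 2) :
    (((vec n).filter L).card : ℤ) + 3 * ((vec n).filter fun v => L (m0 v)).card = 2 * rr n := by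
  have h1 : ((vec n).filter fun v => L (m0 (ro v))).card =
      ((vec n).filter fun v => L (m0 v)).card := card_ro n (fun v => L (m0 v))
  have h2 : ((vec n).filter fun v => L (m0 (ro (ro v)))).card =
      ((vec n).filter fun v => L (m0 v)).card := by
    rw [← h1]
    exact card_ro n (fun v => L (m0 (ro v)))
  have h3 : ∑ v ∈ vec n, ((if L v then (1 : ℤ) else 0) + (if L (m0 v) then 1 else 0) +
      (if L (m0 (ro v)) then 1 else 0) + (if L (m0 (ro (ro v))) then 1 else 0)) =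
      ∑ v ∈ vec n, 2 := by
    refine sum_congr rfl fun v hv => ?_
    rw [mem_vec] at hv
    exact lines (n := n) (by omega) hv
  rw [sum_add_distrib, sum_add_distrib, sum_add_distrib] at h3
  have s3 : ∀ Q : V3 → Prop, ∀ [DecidablePred Q],
      (((vec n).filter Q).card : ℤ) = ∑ w ∈ vec n, if Q w then (1 : ℤ) else 0 := by
    intro Q _
    rw [card_filter]
    push_cast
    rfl
  rw [← s3 L, ← s3 (fun v => L (m0 v)), ← s3 (fun v => L (m0 (ro v))),
    ← s3 (fun v => L (m0 (ro (ro v)))), h1, h2, sum_const] at h3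
  unfold rr
  rw [nsmul_eq_mul] at h3
  linarith

theorem t_HE : S_HE := by
  intro n h4 h3
  have a1 := main h4 (fun _ => True) (fun _ => Iff.rfl) (fun _ => Iff.rfl)
  have a2 := main h4 L (fun v => by
    show (3 : ℤ) ∣ 2 * v 1 + 2 * v 2 ↔ (3 : ℤ) ∣ v 1 + v 2
    omega)
    (fun v => by unfold L; simp only [ro_1, ro_2]; omega)
  have a3 := lines_sum h3
  rw [filter_true, filter_true] at a1
  have b1 : rr (4 * n) = ((vec (4 * n)).card : ℤ) := rfl
  have b2 : rr n = ((vec n).card : ℤ) := rfl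
  have b3 : rr0 (4 * n) = (((vec (4 * n)).filter L).card : ℤ) := rfl
  have b4 : rr0 n = (((vec n).filter L).card : ℤ) := rfl
  rw [← b1, ← b2] at a1
  rw [← b3, ← b4] at a2
  rw [← b4] at a3
  constructor
  · linarith
  · linarith

end Pool.Agent.N575.P15
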