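import Mathlib
import Pool.Agent.N969.P15.Defs2
import Pool.Agent.N575.P15.HE

/-!
# The Hecke relations at `2` for the ternary form of determinant `100`, ramified case
-/

set_option autoImplicit false

namespace Pool.Agent.N575.P15

open Finset Pool.Agent.N969.P15

theorem check1E : ∀ a b c : Fin 8, ¬ (a.val % 2 = 0 ∧ b.val % 2 = 0 ∧ c.val % 2 = 0) →
    (3 * (a.val * a.val) + 7 * (b.val * b.val) + 7 * (c.val * c.val) + 14 * (a.val * b.val) +
      14 * (a.val * c.val) + 10 * (b.val * c.val)) % 16 = 0 →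
    (if a.val % 2 = 0 ∧ (a.val + 2 * b.val) % 4 = 0 ∧ (a.val + 2 * c.val) % 4 = 0 then (1 : ℕ)
      else 0) +
    (if c.val % 2 = 0 ∧ (a.val + b.val) % 4 = 0 then 1 else 0) +
    (if b.val % 2 = 0 ∧ (a.val + c.val) % 4 = 0 then 1 else 0) = 1 := by
  decide

theorem check2E : ∀ a b c : Fin 8,
    ((3 * (a.val * a.val) + 7 * (b.val * b.val) + 7 * (c.val * c.val) + 14 * (a.val * b.val) +
      14 * (a.val * c.val) + 10 * (b.val * c.val)) % 16 = 4 ∨
    (3 * (a.val * a.val) + 7 * (b.val * b.val) + 7 * (c.val * c.val) + 14 * (a.val * b.val) +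
      14 * (a.val * c.val) + 10 * (b.val * c.val)) % 16 = 8) →
    ((if a.val % 2 = 0 then (1 : ℕ) else 0) +
    (if (a.val + b.val) % 2 = 0 then 1 else 0) +
    (if (a.val + c.val) % 2 = 0 then 1 else 0)) = 1 := by
  decide

theorem count1E {n : ℤ} (hn : n % 16 = 0) {w : V3} (hw : ip w w = n) (hE : ¬ E w) :
    (if A0 w then (1 : ℤ) else 0) + (if A0 (ri w) then 1 else 0) +
      (if A0 (ri (ri w)) then 1 else 0) = 1 := by
  obtain ⟨a, b, c, ⟨p, q, r, h0, h1, h2⟩, K, hK⟩ := red w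
  have h := check1E a b c (by
    intro hh
    apply hE
    unfold E
    omega) (by omega)
  have e1 : (A0 w) ↔ (a.val % 2 = 0 ∧ (a.val + 2 * b.val) % 4 = 0 ∧
      (a.val + 2 * c.val) % 4 = 0) := by
    unfold A0; omega
  have e2 : (A0 (ri w)) ↔ (c.val % 2 = 0 ∧ (a.val + b.val) % 4 = 0) := by
    unfold A0
    simp only [ri_0, ri_1, ri_2]
    omega
  have e3 : (A0 (ri (ri w))) ↔ (b.val % 2 = 0 ∧ (a.val + c.val) % 4 = 0) := by
    unfold A0
    simp only [ri_0, ri_1, ri_2]
    omega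
  simp only [e1, e2, e3]
  exact_mod_cast h

theorem count2E {n : ℤ} (hn : n % 16 = 4 ∨ n % 16 = 8) {v : V3} (hv : ip v v = n) :
    (if A0 (fun i => 2 * v i) then (1 : ℤ) else 0) + (if A0 (ri (fun i => 2 * v i)) then 1 else 0) +
      (if A0 (ri (ri (fun i => 2 * v i))) then 1 else 0) = 1 := by
  obtain ⟨a, b, c, ⟨p, q, r, h0, h1, h2⟩, K, hK⟩ := red v
  have h := check2E a b c (by omega)
  have e1 : (A0 (fun i => 2 * v i)) ↔ (a.val % 2 = 0) := by
    unfold A0
    beta_reduce
    omega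
  have e2 : (A0 (ri (fun i => 2 * v i))) ↔ ((a.val + b.val) % 2 = 0) := by
    unfold A0
    simp only [ri_0, ri_1, ri_2]
    omega
  have e3 : (A0 (ri (ri (fun i => 2 * v i)))) ↔ ((a.val + c.val) % 2 = 0) := by
    unfold A0
    simp only [ri_0, ri_1, ri_2]
    omega
  simp only [e1, e2, e3]
  exact_mod_cast h

/-- the main counting identity, ramified case -/
theorem mainE {n : ℤ} (hn : n % 16 = 4 ∨ n % 16 = 8) (P : V3 → Prop) [DecidablePred P]
    (hR : ∀ v : V3, P (ro v) ↔ P v) :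
    3 * (((vec n).filter fun v => P (m0 v)).card : ℤ) = ((vec (4 * n)).filter P).card := by
  have s1 : ((vec (4 * n)).filter fun w => P w ∧ A0 w).card =
      ((vec (4 * n)).filter fun w => P w ∧ A0 (ri w)).card := by
    rw [← card_ro (4 * n) (fun w => P w ∧ A0 (ri w))]
    congr 1
    ext w
    simp only [mem_filter, hR, ri_ro]
  have s2 : ((vec (4 * n)).filter fun w => P w ∧ A0 w).card =
      ((vec (4 * n)).filter fun w => P w ∧ A0 (ri (ri w))).card := by
    rw [s1, ← card_ro (4 * n) (fun w => P w ∧ A0 (ri (ri w)))]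
    congr 1
    ext w
    simp only [mem_filter, hR, ri_ro]
  have s3 : ∀ Q : V3 → Prop, ∀ [DecidablePred Q],
      (((vec (4 * n)).filter fun w => P w ∧ Q w).card : ℤ) =
      ∑ w ∈ (vec (4 * n)).filter P, if Q w then (1 : ℤ) else 0 := by
    intro Q _
    rw [← filter_filter, card_filter]
    push_cast
    rfl
  have s4 : 3 * (((vec n).filter fun v => P (m0 v)).card : ℤ) =
      ∑ w ∈ (vec (4 * n)).filter P, ((if A0 w then (1 : ℤ) else 0) +
        (if A0 (ri w) then 1 else 0) + (if A0 (ri (ri w)) then 1 else 0)) := by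
    rw [sum_add_distrib, sum_add_distrib, ← s3 A0, ← s3 (fun w => A0 (ri w)),
      ← s3 (fun w => A0 (ri (ri w))), ← s1, ← s2, card_m0]
    ring
  rw [s4]
  have s5 : ∀ w ∈ (vec (4 * n)).filter P, ((if A0 w then (1 : ℤ) else 0) +
        (if A0 (ri w) then 1 else 0) + (if A0 (ri (ri w)) then 1 else 0)) = 1 := by
    intro w hw
    rw [mem_filter, mem_vec] at hw
    by_cases hE : E w
    · obtain ⟨⟨a, ha⟩, ⟨b, hb⟩, ⟨c, hc⟩⟩ := id hE
      have hm : (fun i => 2 * (![a, b, c] : V3) i) = w := by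
        refine ext3 ?_ ?_ ?_
        · simp; omega
        · simp; omega
        · simp; omega
      have h1 := hw.1
      have h2 : ip ![a, b, c] ![a, b, c] = n := by
        unfold ip at h1 ⊢
        rw [ha, hb, hc] at h1
        simp
        linarith
      have h3 := count2E hn h2
      rw [hm] at h3
      exact h3
    · exact count1E (n := 4 * n) (by omega) hw.1 hE
  rw [sum_congr rfl s5, sum_const]
  simp

/-- the lines modulo `3`, integer form -/
theorem t_HEE : S_HEE := by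
  intro m h4 h3
  have hn : ((4 * m : ℕ) : ℤ) % 16 = 4 ∨ ((4 * m : ℕ) : ℤ) % 16 = 8 := by omega
  have a1 := mainE hn (fun _ => True) (fun _ => Iff.rfl)
  have a2 := mainE hn L
    (fun v => by unfold L; simp only [ro_1, ro_2]; omega)
  have a3 := lines_sum h3
  rw [filter_true, filter_true] at a1
  have e16 : (4 * ((4 * m : ℕ) : ℤ)) = 16 * (m : ℤ) := by push_cast; ring
  have e4 : ((4 * m : ℕ) : ℤ) = 4 * (m : ℤ) := by push_cast; ring
  rw [e16, e4] at a1 a2
  rw [e4] at a3
  have b1 : rr (16 * (m : ℤ)) = ((vec (16 * (m : ℤ))).card : ℤ) := rfl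
  have b2 : rr (4 * (m : ℤ)) = ((vec (4 * (m : ℤ))).card : ℤ) := rfl
  have b3 : rr0 (16 * (m : ℤ)) = (((vec (16 * (m : ℤ))).filter L).card : ℤ) := rfl
  have b4 : rr0 (4 * (m : ℤ)) = (((vec (4 * (m : ℤ))).filter L).card : ℤ) := rfl
  rw [← b1, ← b2] at a1
  rw [← b3] at a2
  rw [← b4] at a3
  constructor
  · linarith
  · linarith

end Pool.Agent.N575.P15
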