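import Mathlib
import Pool.Agent.N575.P15.HEE

/-!
# The Hecke relations at `2` for norms divisible by three
-/

set_option autoImplicit false

namespace Pool.Agent.N575.P15

open Finset Pool.Agent.N969.P15

theorem check4 : ∀ a b c : ZMod 3, (a ≠ 0 ∨ b ≠ 0 ∨ c ≠ 0) →
    3 * (a * a) + 7 * (b * b) + 7 * (c * c) - (a * b + b * a) -
    (a * c + c * a) - 3 * (b * c + c * b) = 0 →
    (if b + c = 0 then (1 : ℕ) else 0) + (if -2 * a + 2 * b + 2 * c = 0 then 1 else 0) +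
    (if -2 * (a - c) + 2 * (-c) + 2 * (b - c) = 0 then 1 else 0) +
    (if -2 * (a - b) + 2 * (-(b - c)) + 2 * (-c - (b - c)) = 0 then 1 else 0) = 1 := by
  decide

theorem lines3 {n : ℤ} (hn : n % 3 = 0) (hn9 : ¬ (9 : ℤ) ∣ n) {v : V3} (hv : ip v v = n) :
    (if L v then (1 : ℤ) else 0) + (if L (m0 v) then 1 else 0) + (if L (m0 (ro v)) then 1 else 0) +
      (if L (m0 (ro (ro v))) then 1 else 0) = 1 := by
  have key : ∀ x : ℤ, (3 : ℤ) ∣ x ↔ (x : ZMod 3) = 0 := fun x =>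
    ((ZMod.intCast_zmod_eq_zero_iff_dvd x 3)).symm
  have hnz : (v 0 : ZMod 3) ≠ 0 ∨ (v 1 : ZMod 3) ≠ 0 ∨ (v 2 : ZMod 3) ≠ 0 := by
    by_contra hcon
    push Not at hcon
    obtain ⟨c0, c1, c2⟩ := hcon
    obtain ⟨x, hx⟩ := (key _).2 c0
    obtain ⟨y, hy⟩ := (key _).2 c1
    obtain ⟨z, hz⟩ := (key _).2 c2
    apply hn9
    rw [← hv]
    unfold ip
    rw [hx, hy, hz]
    exact ⟨3 * (x * x) + 7 * (y * y) + 7 * (z * z) - (x * y + y * x) - (x * z + z * x) -
      3 * (y * z + z * y), by ring⟩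
  have h := check4 (v 0 : ZMod 3) (v 1 : ZMod 3) (v 2 : ZMod 3) hnz (by
    have h1 : ((ip v v : ℤ) : ZMod 3) = 0 := by
      rw [← key, hv]
      exact Int.dvd_of_emod_eq_zero hn
    unfold ip at h1
    push_cast at h1
    exact h1)
  have e0 : L v ↔ (v 1 : ZMod 3) + (v 2 : ZMod 3) = 0 := by
    unfold L; rw [key]; push_cast; rfl
  have e1 : L (m0 v) ↔ -2 * (v 0 : ZMod 3) + 2 * (v 1 : ZMod 3) + 2 * (v 2 : ZMod 3) = 0 := by
    unfold L; rw [key]; simp only [m0_1, m0_2]; push_cast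
    constructor <;> intro h <;> linear_combination h
  have e2 : L (m0 (ro v)) ↔ -2 * ((v 0 : ZMod 3) - (v 2 : ZMod 3)) + 2 * (-(v 2 : ZMod 3)) +
      2 * ((v 1 : ZMod 3) - (v 2 : ZMod 3)) = 0 := by
    unfold L; rw [key]; simp only [m0_1, m0_2, ro_0, ro_1, ro_2]; push_cast
    constructor <;> intro h <;> linear_combination h
  have e3 : L (m0 (ro (ro v))) ↔ -2 * ((v 0 : ZMod 3) - (v 1 : ZMod 3)) +
      2 * (-((v 1 : ZMod 3) - (v 2 : ZMod 3))) +
      2 * (-(v 2 : ZMod 3) - ((v 1 : ZMod 3) - (v 2 : ZMod 3))) = 0 := by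
    unfold L; rw [key]; simp only [m0_1, m0_2, ro_0, ro_1, ro_2]; push_cast
    constructor <;> intro h <;> linear_combination h
  simp only [e0, e1, e2, e3]
  exact_mod_cast h

theorem lines3_sum {n : ℤ} (hn : n % 3 = 0) (hn9 : ¬ (9 : ℤ) ∣ n) :
    (((vec n).filter L).card : ℤ) + 3 * ((vec n).filter fun v => L (m0 v)).card = rr n := by
  have h1 : ((vec n).filter fun v => L (m0 (ro v))).card =
      ((vec n).filter fun v => L (m0 v)).card := card_ro n (fun v => L (m0 v))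
  have h2 : ((vec n).filter fun v => L (m0 (ro (ro v)))).card =
      ((vec n).filter fun v => L (m0 v)).card := by
    rw [← h1]
    exact card_ro n (fun v => L (m0 (ro v)))
  have h3 : ∑ v ∈ vec n, ((if L v then (1 : ℤ) else 0) + (if L (m0 v) then 1 else 0) +
      (if L (m0 (ro v)) then 1 else 0) + (if L (m0 (ro (ro v))) then 1 else 0)) =
      ∑ v ∈ vec n, 1 := by
    refine sum_congr rfl fun v hv => ?_
    rw [mem_vec] at hv
    exact lines3 hn hn9 hv
  rw [sum_add_distrib, sum_add_distrib, sum_add_distrib] at h3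
  have s3 : ∀ Q : V3 → Prop, ∀ [DecidablePred Q],
      (((vec n).filter Q).card : ℤ) = ∑ w ∈ vec n, if Q w then (1 : ℤ) else 0 := by
    intro Q _
    rw [card_filter]
    push_cast
    rfl
  rw [← s3 L, ← s3 (fun v => L (m0 v)), ← s3 (fun v => L (m0 (ro v))),
    ← s3 (fun v => L (m0 (ro (ro v)))), h1, h2, sum_const] at h3
  unfold rr
  rw [nsmul_eq_mul, mul_one] at h3
  linarith

/-- HE3: the Hecke relations at `2` for odd norms divisible by three -/
theorem t_HE3 : ∀ n : ℕ, n % 4 = 3 → 3 ∣ n → ¬ 9 ∣ n →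
    rr (4 * n) = (3 - ep2 n) * rr n ∧ rr0 (4 * n) = rr n - (1 + ep2 n) * rr0 n := by
  intro n h4 h3 h9
  have a1 := main h4 (fun _ => True) (fun _ => Iff.rfl) (fun _ => Iff.rfl)
  have a2 := main h4 L (fun v => by
    show (3 : ℤ) ∣ 2 * v 1 + 2 * v 2 ↔ (3 : ℤ) ∣ v 1 + v 2
    omega)
    (fun v => by unfold L; simp only [ro_1, ro_2]; omega)
  have a3 := lines3_sum (n := (n : ℤ)) (by omega) (by omega)
  rw [filter_true, filter_true] at a1
  have b1 : rr (4 * n) = ((vec (4 * n)).card : ℤ) := rfl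
  have b2 : rr n = ((vec n).card : ℤ) := rfl
  have b3 : rr0 (4 * n) = (((vec (4 * n)).filter L).card : ℤ) := rfl
  have b4 : rr0 n = (((vec n).filter L).card : ℤ) := rfl
  rw [← b1, ← b2] at a1
  rw [← b3, ← b4] at a2
  rw [← b4] at a3
  constructor
  · linarith
  · linarith

/-- HE3E: the Hecke relations at `2` for norms `4 m` divisible by three -/
theorem t_HE3E : ∀ m : ℕ, (m % 4 = 1 ∨ m % 4 = 2) → 3 ∣ m → ¬ 9 ∣ m →
    rr (16 * m) = 3 * rr (4 * m) ∧ rr0 (16 * m) = rr (4 * m) - rr0 (4 * m) := by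
  intro m h4 h3 h9
  have hn : ((4 * m : ℕ) : ℤ) % 16 = 4 ∨ ((4 * m : ℕ) : ℤ) % 16 = 8 := by omega
  have a1 := mainE hn (fun _ => True) (fun _ => Iff.rfl)
  have a2 := mainE hn L
    (fun v => by unfold L; simp only [ro_1, ro_2]; omega)
  have a3 := lines3_sum (n := ((4 * m : ℕ) : ℤ)) (by omega) (by omega)
  rw [filter_true, filter_true] at a1
  have e16 : (4 * ((4 * m : ℕ) : ℤ)) = 16 * (m : ℤ) := by push_cast; ring
  have e4 : ((4 * m : ℕ) : ℤ) = 4 * (m : ℤ) := by push_cast; ring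
  rw [e16, e4] at a1 a2
  rw [e4] at a3
  have b1 : rr (16 * (m : ℤ)) = ((vec (16 * (m : ℤ))).card : ℤ) := rfl
  have b2 : rr (4 * (m : ℤ)) = ((vec (4 * (m : ℤ))).card : ℤ) := rfl
  have b3 : rr0 (16 * (m : ℤ)) = (((vec (16 * (m : ℤ))).filter L).card : ℤ) := rfl
  have b4 : rr0 (4 * (m : ℤ)) = (((vec (4 * (m : ℤ))).filter L).card : ℤ) := rfl
  rw [← b1, ← b2] at a1
  rw [← b3] at a2
  rw [← b4] at a3
  constructor
  · linarith
  · linarith

/-- the number of vectors of norm `4 n`, no condition at three -/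
theorem rr_four : ∀ n : ℕ, n % 4 = 3 → rr (4 * n) = (3 - ep2 n) * rr n := by
  intro n h4
  have a1 := main h4 (fun _ => True) (fun _ => Iff.rfl) (fun _ => Iff.rfl)
  rw [filter_true, filter_true] at a1
  have b1 : rr (4 * n) = ((vec (4 * n)).card : ℤ) := rfl
  have b2 : rr n = ((vec n).card : ℤ) := rfl
  rw [← b1, ← b2] at a1
  linarith

end Pool.Agent.N575.P15
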