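import Mathlib
import Pool.Agent.N972.PC15.XC

/-!
# The number of pairs with given Gram matrix for an even norm, part one: frames

The results of `Pool.Agent.N972.PC15.Cnt` for norms `n1` all of whose vectors are primitive.
-/

set_option autoImplicit false
set_option linter.all false

namespace Pool.Agent.N575.P15.PCE

open Finset Matrix
open Pool.Agent.Y288.Z7 (cols dd3 det_cols cols_eq dt crs crs0 crs1 crs2 ext3 dd3_eq dd3_eq' dt_comm
  dcross crs_lin crs_sub dt_crs_left dt_crs_right dt_add dt_sub dt_smul smul_dt cramer3 small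
  parallel bez content crs_sub_smul crs_smul)
open Pool.Agent.N972.PC15

/-! ### identities -/

theorem dual1 (v w z : Fin 3 → ℤ) : gi v v * fi (crs w z) (crs z v) =
    fi (crs v w) (crs v z) * gi v z - 2 * ff (crs v z) * gi v w := by
  simp only [gi, fi, ff, crs0, crs1, crs2]; ring

theorem dual2 (v w z : Fin 3 → ℤ) : gi v v * fi (crs w z) (crs v w) =
    fi (crs v w) (crs v z) * gi v w - 2 * ff (crs v w) * gi v z := by
  simp only [gi, fi, ff, crs0, crs1, crs2]; ring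

theorem dual3 (v w z : Fin 3 → ℤ) : 2 * gi v v * ff (crs w z) +
    fi (crs w z) (crs z v) * gi v w + fi (crs w z) (crs v w) * gi v z = 10 * dd3 v w z ^ 2 := by
  simp only [gi, fi, ff, crs0, crs1, crs2, dd3]; ring

/-! ### the additional conditions -/

/-- the additional conditions on the parameters -/
def Ext (n1 φ g μ β ν : ℕ) : Prop :=
  (n1 : ℤ) ∣ β * ν - 2 * g * μ ∧ (n1 : ℤ) ∣ β * μ - 2 * φ * ν ∧
    (n1 : ℤ) ^ 2 ∣ 5 * n1 + (g * μ ^ 2 - β * μ * ν + φ * ν ^ 2)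

instance (n1 φ g μ β ν : ℕ) : Decidable (Ext n1 φ g μ β ν) := by
  unfold Ext
  infer_instance

/-- the parameters with the additional conditions -/
def XE (n1 : ℕ) (b : ℤ) (Q : ℕ) : Finset (ℕ × ℕ × ℕ × ℕ) :=
  (XX n1 b Q).filter fun q =>
    Ext n1 (Q / q.1 ^ 2) ((q.2.2.1 ^ 2 + n1) / (4 * (Q / q.1 ^ 2))) q.2.1 q.2.2.1 q.2.2.2

/-- the arithmetic of the inverse of the Gram matrix -/
theorem inv_arithE {n1 : ℤ} (hn0 : 0 < n1) {μ ν β φ g d ee f : ℤ}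
    (hφ : 0 < φ) (hd : n1 * d = μ ^ 2 + 20 * φ) (hg : 4 * φ * g = β ^ 2 + n1)
    (h1 : n1 ∣ β * ν - 2 * g * μ) (h2 : n1 ∣ β * μ - 2 * φ * ν)
    (h3 : n1 ^ 2 ∣ 5 * n1 + (g * μ ^ 2 - β * μ * ν + φ * ν ^ 2)) :
    ∃ x y α : ℤ, n1 * x = β * ν - 2 * g * μ ∧ n1 * y = β * μ - 2 * φ * ν ∧
      n1 * α = 5 + φ * x ^ 2 + β * x * y + g * y ^ 2 ∧ 0 < α := by
  obtain ⟨x, hx⟩ := h1
  obtain ⟨y, hy⟩ := h2
  obtain ⟨α, hα⟩ := h3
  -- `2 φ x + β y = - μ`, `β x + 2 γ y = - ν`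
  have e1 : 2 * φ * x + β * y = -μ := by
    apply mul_left_cancel₀ hn0.ne'
    linear_combination (-(2 * φ)) * hx - β * hy - μ * hg
  have e2 : β * x + 2 * g * y = -ν := by
    apply mul_left_cancel₀ hn0.ne'
    linear_combination (-β) * hx - (2 * g) * hy - ν * hg
  have e1' : μ = -(2 * φ * x + β * y) := by linarith
  have e2' : ν = -(β * x + 2 * g * y) := by linarith
  obtain ⟨q, hq⟩ : ∃ q, q = 5 + φ * x ^ 2 + β * x * y + g * y ^ 2 := ⟨_, rfl⟩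
  have hqα : q = n1 * α := by
    apply mul_left_cancel₀ hn0.ne'
    have e3 : g * μ ^ 2 - β * μ * ν + φ * ν ^ 2 = n1 * (φ * x ^ 2 + β * x * y + g * y ^ 2) := by
      rw [e1', e2']
      linear_combination (φ * x ^ 2 + β * x * y + g * y ^ 2) * hg
    rw [e3] at hα
    rw [hq]
    linear_combination hα
  have f1 : 4 * φ * q = n1 * (d + y ^ 2) := by
    rw [hq]
    linear_combination (2 * φ * x + β * y - μ) * e1 - hd + y ^ 2 * hg
  refine ⟨x, y, α, hx.symm, hy.symm, by rw [← hqα, hq], ?_⟩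
  have hq0 : 0 < q := by
    have h1 : 0 < 4 * φ * q := by
      rw [f1, mul_add, hd]
      nlinarith [sq_nonneg μ, mul_nonneg hn0.le (sq_nonneg y)]
    by_contra hcon
    push Not at hcon
    nlinarith
  rw [hqα] at hq0
  exact (mul_pos_iff_of_pos_left hn0).1 hq0

/-- the Gram matrix is the adjugate of an even form of determinant ten -/
theorem mm_posE {n1 Q : ℕ} {b : ℤ} {e μ β ν : ℕ}
    (h : (e, μ, β, ν) ∈ XE n1 b Q) : ∃ M, PosF M ∧ M.adjugate = mm n1 Q (e, μ, β, ν) := by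
  have hE := (Finset.mem_filter.1 h).2
  have hw := wit_of_mem (Finset.mem_filter.1 h).1
  unfold Ext at hE
  simp only at hE
  have hmm : mm n1 Q (e, μ, β, ν) = !![(n1 : ℤ), (μ : ℤ), (ν : ℤ);
     (μ : ℤ), (((μ ^ 2 + 20 * (Q / e ^ 2)) / n1 : ℕ) : ℤ),
       (((10 * β + μ * ν) / n1 : ℕ) : ℤ);
     (ν : ℤ), (((10 * β + μ * ν) / n1 : ℕ) : ℤ),
       (((20 * ((β ^ 2 + n1) / (4 * (Q / e ^ 2))) + ν ^ 2) / n1 : ℕ) : ℤ)] := rfl
  rw [hmm]
  obtain ⟨he, hD, hβ, hμ, hν, hb, hd, hg, hee, hf⟩ := hw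
  generalize (μ ^ 2 + 20 * (Q / e ^ 2)) / n1 = d at *
  generalize (10 * β + μ * ν) / n1 = ee at *
  generalize (20 * ((β ^ 2 + n1) / (4 * (Q / e ^ 2))) + ν ^ 2) / n1 = f at *
  generalize (β ^ 2 + n1) / (4 * (Q / e ^ 2)) = g at *
  generalize Q / e ^ 2 = φ at *
  have hn : (0 : ℤ) < n1 := by exact_mod_cast (by omega : 0 < n1)
  have hφ : (0 : ℤ) < φ := by exact_mod_cast (by omega : 0 < φ)
  have k1 : (n1 : ℤ) * d = μ ^ 2 + 20 * φ := by exact_mod_cast hd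
  have k2 : 4 * (φ : ℤ) * g = β ^ 2 + n1 := by exact_mod_cast hg
  have k3 : (n1 : ℤ) * ee = 10 * β + μ * ν := by exact_mod_cast hee
  have k4 : (n1 : ℤ) * f = 20 * g + ν ^ 2 := by exact_mod_cast hf
  obtain ⟨x, y, α, hx, hy, hα, hα0⟩ := inv_arithE (ee := ee) (f := f) hn hφ k1 k2 hE.1 hE.2.1 hE.2.2
  have e1 : 2 * (φ : ℤ) * x + β * y = -μ := by
    apply mul_left_cancel₀ hn.ne'
    linear_combination (2 * (φ : ℤ)) * hx + β * hy - μ * k2
  have e2 : (β : ℤ) * x + 2 * g * y = -ν := by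
    apply mul_left_cancel₀ hn.ne'
    linear_combination (β : ℤ) * hx + (2 * (g : ℤ)) * hy - ν * k2
  have e3 : 4 * α * φ - y ^ 2 = d := by
    apply mul_left_cancel₀ hn.ne'
    linear_combination (4 * (φ : ℤ)) * hα + (2 * (φ : ℤ) * x + β * y - μ) * e1 - k1 + y ^ 2 * k2
  have e4 : 4 * α * g - x ^ 2 = f := by
    apply mul_left_cancel₀ hn.ne'
    linear_combination (4 * (g : ℤ)) * hα + ((β : ℤ) * x + 2 * g * y - ν) * e2 - k4 + x ^ 2 * k2
  have e5 : x * y + 2 * α * β = ee := by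
    apply mul_left_cancel₀ hn.ne'
    linear_combination (2 * (β : ℤ)) * hα + ((β : ℤ) * x + 2 * g * y) * e1 - μ * e2 - k3 -
      x * y * k2
  have e6 : 2 * α * n1 + x * μ + y * ν = 10 := by
    linear_combination 2 * hα + x * e1 + y * e2
  have hf0 : (0 : ℤ) < f := by
    have h1 : (0 : ℤ) < 4 * φ * g := by rw [k2]; positivity
    have hg0 : (0 : ℤ) < g := (mul_pos_iff_of_pos_left (by linarith : (0 : ℤ) < 4 * φ)).1 h1
    have h2 : (0 : ℤ) < n1 * f := by rw [k4]; positivity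
    exact (mul_pos_iff_of_pos_left hn).1 h2
  refine ⟨!![2 * α, x, y; x, 2 * g, -β; y, -β, 2 * φ], ⟨?_, ?_, ?_, ?_, ?_, ?_, ?_⟩, ?_⟩
  · ext i j
    fin_cases i <;> fin_cases j <;> rfl
  · show 0 < 2 * α
    linarith
  · show 0 < 2 * α * (2 * g) - x ^ 2
    have : 2 * α * (2 * g) - x ^ 2 = f := by rw [← e4]; ring
    rw [this]
    exact hf0
  · rw [det_fin_three]
    show 2 * α * (2 * g) * (2 * φ) - 2 * α * (-β) * (-β) - x * x * (2 * φ) + x * (-β) * y +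
      y * x * (-β) - y * (2 * g) * y = 10
    linear_combination (2 * α) * k2 - x * e1 - y * e2 + e6
  · exact ⟨α, rfl⟩
  · exact ⟨g, rfl⟩
  · exact ⟨φ, rfl⟩
  · rw [adjugate_fin_three]
    ext i j
    fin_cases i <;> fin_cases j
    · show 2 * (g : ℤ) * (2 * φ) - (-β) * (-β) = n1
      linear_combination k2
    · show -(x * (2 * φ)) + y * (-β) = (μ : ℤ)
      linear_combination -e1
    · show x * (-β) - y * (2 * g) = (ν : ℤ)
      linear_combination -e2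
    · show -(x * (2 * φ)) + (-β) * y = (μ : ℤ)
      linear_combination -e1
    · show 2 * α * (2 * φ) - y * y = (d : ℤ)
      linear_combination e3
    · show -(2 * α * (-β)) + y * x = (ee : ℤ)
      linear_combination e5
    · show x * (-β) - 2 * g * y = (ν : ℤ)
      linear_combination -e2
    · show -(2 * α * (-β)) + x * y = (ee : ℤ)
      linear_combination e5
    · show 2 * α * (2 * g) - x * x = (f : ℤ)
      linear_combination e4

/-- the parameters and the frames -/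
abbrev FrE (n1 : ℕ) (b : ℤ) (Q : ℕ) : Type :=
  Σ x : {x : ℕ × ℕ × ℕ × ℕ // x ∈ XE n1 b Q},
    {A : Matrix (Fin 3) (Fin 3) ℤ // Aᵀ * GG * A = mm n1 Q x.1 ∧ A.det = 1}

theorem card_frE (n1 : ℕ) (b : ℤ) (Q : ℕ) :
    Nat.card (FrE n1 b Q) = 6 * (XE n1 b Q).card := by
  have h1 : ∀ x : {x : ℕ × ℕ × ℕ × ℕ // x ∈ XE n1 b Q},
      Nat.card {A : Matrix (Fin 3) (Fin 3) ℤ // Aᵀ * GG * A = mm n1 Q x.1 ∧ A.det = 1} = 6 := by
    rintro ⟨⟨e, μ, β, ν⟩, hx⟩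
    obtain ⟨M, hM, hM2⟩ := mm_posE hx
    rw [← hM2]
    exact t_TORS M hM
  haveI : ∀ x : {x : ℕ × ℕ × ℕ × ℕ // x ∈ XE n1 b Q},
      Finite {A : Matrix (Fin 3) (Fin 3) ℤ // Aᵀ * GG * A = mm n1 Q x.1 ∧ A.det = 1} := fun x =>
    Nat.finite_of_card_ne_zero (by rw [h1 x]; norm_num)
  rw [Nat.card_sigma, Finset.sum_congr rfl (fun x _ => h1 x), Finset.sum_const, smul_eq_mul,
    Finset.card_univ, Fintype.card_coe, mul_comm]

theorem toPair_surjE {n1 n2 Q : ℕ} {b : ℤ} (hn0 : 0 < n1)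
    (hprim : ∀ v : Fin 3 → ℤ, gi v v = n1 → ∃ y, dt v y = 1) (hQ0 : 0 < Q)
    (hDD : 20 * (Q : ℤ) = n1 * n2 - b ^ 2) {v w : Fin 3 → ℤ} (hv : gi v v = n1)
    (hw : gi w w = n2) (hvw : gi v w = b) :
    ∃ (x : ℕ × ℕ × ℕ × ℕ) (A : Matrix (Fin 3) (Fin 3) ℤ),
      x ∈ XE n1 b Q ∧ (Aᵀ * GG * A = mm n1 Q x ∧ A.det = 1) ∧ toPair b n1 x A = (v, w) := by
  have hn : (0 : ℤ) < n1 := by exact_mod_cast hn0
  obtain ⟨y, hy⟩ := hprim v hv
  have hcc : ff (crs v w) = Q := by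
    have h1 := lag_g2 v w
    rw [hv, hw, hvw, ← hDD] at h1
    linarith
  have hc0 : crs v w ≠ 0 := by
    intro h0
    rw [h0] at hcc
    simp only [ff, Pi.zero_apply] at hcc
    have : (Q : ℤ) = 0 := by rw [← hcc]; norm_num
    have : Q = 0 := by exact_mod_cast this
    omega
  obtain ⟨e, c, z0, he, hce, hz0⟩ := content (crs v w) hc0
  have heZ : (0 : ℤ) < e := by exact_mod_cast he
  have hcv : dt c v = 0 := by
    have h1 := dt_crs_left v w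
    rw [hce, smul_dt] at h1
    exact (mul_eq_zero.1 h1).resolve_left heZ.ne'
  -- the second vector
  obtain ⟨w0, hw0⟩ : ∃ w0, w0 = crs c y := ⟨_, rfl⟩
  have hvw0 : crs v w0 = c := by
    rw [hw0, dcross, hy, dt_comm v c, hcv, one_smul, zero_smul, sub_zero]
  obtain ⟨w1, hw1⟩ : ∃ w1, w1 = w0 - (gi v w0 / n1) • v := ⟨_, rfl⟩
  have hvw1 : crs v w1 = c := by rw [hw1, crs_sub_smul, hvw0]
  have hm : gi v w1 = gi v w0 % n1 := by
    rw [hw1, gi_sub, gi_smul, hv]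
    have := Int.emod_add_mul_ediv (gi v w0) n1
    linarith
  have hm0 : 0 ≤ gi v w1 := by rw [hm]; exact Int.emod_nonneg _ hn.ne'
  have hm1 : gi v w1 < n1 := by rw [hm]; exact Int.emod_lt_of_pos _ hn
  -- the determinant
  have hDc : (e : ℤ) ^ 2 * ff c = Q := by
    rw [← hcc, hce, ff_smul]
  have hc2 : 20 * ff c = n1 * gi w1 w1 - gi v w1 ^ 2 := by
    rw [← hvw1, ← lag_g2, hv]
  have hcpos : 0 < ff c := by
    have h1 := ff_nonneg c
    rcases h1.eq_or_lt with h2 | h2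
    · rw [← h2, mul_zero] at hDc
      have : Q = 0 := by exact_mod_cast hDc.symm
      omega
    · exact h2
  have hcw1 : dt c w1 = 0 := by rw [← hvw1]; exact dt_crs_right v w1
  -- the third vector
  obtain ⟨B0, hB0⟩ : ∃ B0, B0 = fi c (crs v z0) := ⟨_, rfl⟩
  obtain ⟨z1, hz1⟩ : ∃ z1, z1 = z0 - (B0 / (2 * ff c)) • w1 := ⟨_, rfl⟩
  obtain ⟨z2, hz2⟩ : ∃ z2, z2 = z1 - (gi v z1 / n1) • v := ⟨_, rfl⟩
  have hcz : dt c z2 = 1 := by
    rw [hz2, dt_sub, dt_smul, hcv, hz1, dt_sub, dt_smul, hcw1, hz0]; ring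
  have hN : gi v z2 = gi v z1 % n1 := by
    rw [hz2, gi_sub, gi_smul, hv]
    have := Int.emod_add_mul_ediv (gi v z1) n1
    linarith
  have hN0 : 0 ≤ gi v z2 := by rw [hN]; exact Int.emod_nonneg _ hn.ne'
  have hN1 : gi v z2 < n1 := by rw [hN]; exact Int.emod_lt_of_pos _ hn
  have hB : fi c (crs v z2) = B0 % (2 * ff c) := by
    have h1 := Int.emod_add_mul_ediv B0 (2 * ff c)
    have h2 : fi c (crs v z2) = B0 - (B0 / (2 * ff c)) * (2 * ff c) := by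
      rw [hz2, crs_sub_smul, hz1, crs_sub, crs_smul, hvw1, fi_sub, fi_smul, fi_self, hB0]
    linarith
  have hβ0 : 0 ≤ fi c (crs v z2) := by
    rw [hB]; exact Int.emod_nonneg _ (by linarith)
  have hβ1 : fi c (crs v z2) < 2 * ff c := by
    rw [hB]; exact Int.emod_lt_of_pos _ (by linarith)
  have hdet : dd3 v w1 z2 = 1 := by rw [dd3_eq, hvw1, hcz]
  have hB2 : n1 * gi w1 z2 - gi v w1 * gi v z2 = 10 * fi c (crs v z2) := by
    rw [← hvw1, ← lag_g v w1 v z2, hv]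
  have hg2 : n1 * gi z2 z2 - gi v z2 ^ 2 = 20 * ff (crs v z2) := by
    rw [← lag_g2, hv]
  have hf2 : 4 * ff c * ff (crs v z2) = fi c (crs v z2) ^ 2 + n1 := by
    have h1 := lag_f v w1 z2
    rw [hdet, hv, hvw1, fi_self, fi_self] at h1
    linarith
  -- the coefficient of `v` in `w`
  have hu : crs v (w - (e : ℤ) • w1) = 0 := by
    rw [crs_sub, crs_smul, hvw1, hce, sub_self]
  have hk := parallel (y := y) (by rw [dt_comm, hy]) hu
  obtain ⟨k, hkdef⟩ : ∃ k, k = dt y (w - (e : ℤ) • w1) := ⟨_, rfl⟩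
  rw [← hkdef] at hk
  have hbk : b - e * gi v w1 = n1 * k := by
    have h1 := congrArg (gi v) hk
    rw [gi_sub, gi_smul, gi_smul, hv, hvw] at h1
    linarith
  -- natural numbers
  obtain ⟨μ, hμ⟩ : ∃ μ : ℕ, (μ : ℤ) = gi v w1 := ⟨_, Int.toNat_of_nonneg hm0⟩
  obtain ⟨ν, hν⟩ : ∃ ν : ℕ, (ν : ℤ) = gi v z2 := ⟨_, Int.toNat_of_nonneg hN0⟩
  obtain ⟨β, hβ⟩ : ∃ β : ℕ, (β : ℤ) = fi c (crs v z2) :=
    ⟨_, Int.toNat_of_nonneg hβ0⟩
  obtain ⟨φ, hφ⟩ : ∃ φ : ℕ, (φ : ℤ) = ff c := ⟨_, Int.toNat_of_nonneg hcpos.le⟩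
  obtain ⟨g, hg⟩ : ∃ g : ℕ, (g : ℤ) = ff (crs v z2) := ⟨_, Int.toNat_of_nonneg (ff_nonneg _)⟩
  obtain ⟨d, hd⟩ : ∃ d : ℕ, (d : ℤ) = gi w1 w1 := ⟨_, Int.toNat_of_nonneg (gi_nonneg w1)⟩
  obtain ⟨f, hf⟩ : ∃ f : ℕ, (f : ℤ) = gi z2 z2 := ⟨_, Int.toNat_of_nonneg (gi_nonneg z2)⟩
  have hee0 : 0 ≤ gi w1 z2 := by
    by_contra hcon
    push Not at hcon
    have h1 : (n1 : ℤ) * gi w1 z2 < 0 := mul_neg_of_pos_of_neg hn hcon
    have h2 := mul_nonneg hm0 hN0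
    linarith
  obtain ⟨ee, hee⟩ : ∃ ee : ℕ, (ee : ℤ) = gi w1 z2 := ⟨_, Int.toNat_of_nonneg hee0⟩
  rw [← hμ, ← hν, ← hee, ← hβ] at hB2
  rw [← hν, ← hf, ← hg] at hg2
  rw [← hφ, ← hg, ← hβ] at hf2
  rw [← hφ, ← hd, ← hμ] at hc2
  have hW : Wit n1 b Q e μ β ν φ d ee g f := by
    refine ⟨he, ?_, ?_, ?_, ?_, ?_, ?_, ?_, ?_, ?_⟩
    · rw [← hφ] at hDc
      exact_mod_cast hDc.symm
    · have : (β : ℤ) < 2 * φ := by rw [hβ, hφ]; exact hβ1
      exact_mod_cast this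
    · have : (μ : ℤ) < n1 := by rw [hμ]; exact hm1
      exact_mod_cast this
    · have : (ν : ℤ) < n1 := by rw [hν]; exact hN1
      exact_mod_cast this
    · refine ⟨-k, ?_⟩
      rw [hμ]
      linarith
    · have : (n1 : ℤ) * d = μ ^ 2 + 20 * φ := by linarith
      exact_mod_cast this
    · have : 4 * (φ : ℤ) * g = β ^ 2 + n1 := by linarith
      exact_mod_cast this
    · have : (n1 : ℤ) * ee = 10 * β + μ * ν := by linarith
      exact_mod_cast this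
    · have : (n1 : ℤ) * f = 20 * g + ν ^ 2 := by linarith
      exact_mod_cast this
  obtain ⟨hmem, e1, e2, e3, e4⟩ := mem_of_wit hQ0 hW
  have hg5 : (β ^ 2 + n1) / (4 * (Q / e ^ 2)) = g := by
    rw [e1, ← hW.hg]
    have hφ0 : 0 < φ := by
      have := hW.hβ
      omega
    exact Nat.mul_div_cancel_left _ (by omega)
  have hExt : Ext n1 (Q / e ^ 2) ((β ^ 2 + n1) / (4 * (Q / e ^ 2))) μ β ν := by
    rw [hg5, e1]
    have d1 := dual1 v w1 z2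
    have d2 := dual2 v w1 z2
    have d3 := dual3 v w1 z2
    rw [hv, hvw1, ← hβ, ← hν, ← hμ, ← hg] at d1
    rw [hv, hvw1, ← hβ, ← hν, ← hμ, ← hφ] at d2
    rw [hv, hvw1, ← hν, ← hμ, hdet] at d3
    refine ⟨⟨_, d1.symm⟩, ⟨_, d2.symm⟩, ⟨ff (crs w1 z2), ?_⟩⟩
    apply mul_left_cancel₀ (by norm_num : (2 : ℤ) ≠ 0)
    linear_combination (-(n1 : ℤ)) * d3 + (μ : ℤ) * d1 + (ν : ℤ) * d2
  refine ⟨(e, μ, β, ν), cols v w1 z2, Finset.mem_filter.2 ⟨hmem, hExt⟩, ⟨?_, ?_⟩, ?_⟩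
  · rw [gram_iff v w1 z2 _ (mm_symm _ _ _)]
    refine ⟨hv, hμ.symm, hν.symm, ?_, ?_, ?_⟩
    · show gi w1 w1 = (((μ ^ 2 + 20 * (Q / e ^ 2)) / n1 : ℕ) : ℤ)
      rw [e2, hd]
    · show gi w1 z2 = (((10 * β + μ * ν) / n1 : ℕ) : ℤ)
      rw [e3, hee]
    · show gi z2 z2 = (((20 * ((β ^ 2 + n1) / (4 * (Q / e ^ 2))) + ν ^ 2) / n1 : ℕ) : ℤ)
      rw [e4, hf]
  · rw [det_cols, hdet]
  · have hkk : (b - (e : ℤ) * μ) / n1 = k := by
      rw [hμ, hbk]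
      exact Int.mul_ediv_cancel_left _ hn.ne'
    refine Prod.ext rfl ?_
    show (e : ℤ) • w1 + ((b - (e : ℤ) * μ) / n1) • v = w
    rw [hkk, ← hk]
    abel

/-- CNT for all norms all of whose vectors are primitive -/
theorem t_CNTE {n1 n2 Q : ℕ} {b : ℤ} (hn0 : 0 < n1)
    (hprim : ∀ v : Fin 3 → ℤ, gi v v = n1 → ∃ y, dt v y = 1) (hQ0 : 0 < Q)
    (hDD : 20 * (Q : ℤ) = n1 * n2 - b ^ 2) :
    Nat.card (Pairs n1 n2 b) = 6 * (XE n1 b Q).card := by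
  rw [← card_frE n1 b Q]
  symm
  refine Nat.card_eq_of_bijective (fun p : FrE n1 b Q => (⟨toPair b n1 p.1.1 p.2.1,
    toPair_mem hDD (Finset.mem_filter.1 p.1.2).1 p.2.2.1⟩ : Pairs n1 n2 b)) ⟨?_, ?_⟩
  · rintro ⟨⟨⟨e, μ, β, ν⟩, hx⟩, ⟨A, hA⟩⟩ ⟨⟨⟨e', μ', β', ν'⟩, hx'⟩, ⟨A', hA'⟩⟩ heq
    have h1 := congrArg Subtype.val heq
    obtain ⟨h2, h3⟩ := toPair_inj (Finset.mem_filter.1 hx).1 (Finset.mem_filter.1 hx').1
      hA.1 hA.2 hA'.1 hA'.2 h1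
    simp only [Prod.mk.injEq] at h2
    obtain ⟨rfl, rfl, rfl, rfl⟩ := h2
    subst h3
    rfl
  · rintro ⟨⟨v, w⟩, hv, hw, hvw⟩
    obtain ⟨x, A, hx, hA, hp⟩ := toPair_surjE hn0 hprim hQ0 hDD hv hw hvw
    exact ⟨⟨⟨x, hx⟩, ⟨A, hA⟩⟩, Subtype.ext hp⟩

/-- the norms modulo four -/
theorem gi_mod4 (u : Fin 3 → ℤ) : gi u u % 4 = 0 ∨ gi u u % 4 = 3 := by
  have h : gi u u = -(u 0 + u 1 + u 2) ^ 2 +
      4 * (u 0 ^ 2 + 2 * u 1 ^ 2 + 2 * u 2 ^ 2 - u 1 * u 2) := by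
    simp only [gi]; ring
  rw [h]
  generalize u 0 ^ 2 + 2 * u 1 ^ 2 + 2 * u 2 ^ 2 - u 1 * u 2 = k
  generalize u 0 + u 1 + u 2 = s
  rcases Int.emod_two_eq_zero_or_one s with hs | hs
  · obtain ⟨t, rfl⟩ : ∃ t, s = 2 * t := ⟨s / 2, by omega⟩
    left
    have : -(2 * t) ^ 2 + 4 * k = 4 * (k - t ^ 2) := by ring
    rw [this]
    omega
  · obtain ⟨t, rfl⟩ : ∃ t, s = 2 * t + 1 := ⟨s / 2, by omega⟩
    right
    have : -(2 * t + 1) ^ 2 + 4 * k = 4 * (k - t ^ 2 - t - 1) + 3 := by ring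
    rw [this]
    omega

/-- the vectors of norm `4 m` are primitive -/
theorem prim_of_four {m : ℕ} (hm : Squarefree m) (h4 : m % 4 = 1 ∨ m % 4 = 2) (v : Fin 3 → ℤ)
    (hv : gi v v = (4 * m : ℕ)) : ∃ y, dt v y = 1 := by
  apply bez
  intro g hg
  by_contra hg1
  obtain ⟨p, hp, hpg⟩ := Nat.exists_prime_and_dvd hg1
  have hpv : ∀ i, (p : ℤ) ∣ v i := fun i => (Int.natCast_dvd_natCast.2 hpg).trans (hg i)
  choose u hu using hpv
  have h1 : v = (p : ℤ) • u := funext fun i => hu i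
  rw [h1, gi_smul, smul_gi] at hv
  by_cases h2 : p = 2
  · subst h2
    have h3 : gi u u = m := by
      push_cast at hv
      linarith
    have h5 := gi_mod4 u
    rw [h3] at h5
    omega
  · have h3 : p * p ∣ 4 * m := by
      have : ((p * p : ℕ) : ℤ) ∣ ((4 * m : ℕ) : ℤ) := by
        rw [← hv]; push_cast
        exact ⟨gi u u, by ring⟩
      exact_mod_cast this
    have h4' : Nat.Coprime (p * p) 4 := by
      have : Nat.Coprime p 2 := (Nat.coprime_primes hp Nat.prime_two).2 h2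
      have h5 : Nat.Coprime p (2 ^ 2) := this.pow_right 2
      exact Nat.Coprime.mul_left h5 h5
    have h6 := hm p (h4'.dvd_of_dvd_mul_left h3)
    exact hp.one_lt.ne' (Nat.isUnit_iff.1 h6)

end Pool.Agent.N575.P15.PCE
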