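import Mathlib
import Pool.Agent.N575.P15.PCEb

/-!
# The number of pairs with given Gram matrix for an even norm, part three: counts at two
-/

set_option autoImplicit false
set_option linter.all false

namespace Pool.Agent.N575.P15.PCE

open Finset

theorem graph_card' {T : ℕ} (hT : 0 < T) (R : ℕ → ℕ → Prop) [∀ a b, Decidable (R a b)]
    (P : ℕ → Prop) [DecidablePred P] (F : ℕ → ℤ)
    (h : ∀ μ ν, μ < T → ν < T → (R μ ν ↔ P ν ∧ (T : ℤ) ∣ μ - F ν)) :
    ((range T ×ˢ range T).filter fun p : ℕ × ℕ => R p.1 p.2).card = ((range T).filter P).card := by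
  rw [← graph_card hT (fun ν μ => R μ ν) P F (fun ν μ h1 h2 => h μ ν h2 h1)]
  refine Finset.card_nbij' (fun p => (p.2, p.1)) (fun p => (p.2, p.1)) ?_ ?_ ?_ ?_
  · intro p hp
    have hp := Finset.mem_filter.1 (Finset.mem_coe.1 hp)
    have hp1 := Finset.mem_product.1 hp.1
    exact Finset.mem_coe.2 (Finset.mem_filter.2 ⟨Finset.mem_product.2 ⟨hp1.2, hp1.1⟩, hp.2⟩)
  · intro p hp
    have hp := Finset.mem_filter.1 (Finset.mem_coe.1 hp)
    have hp1 := Finset.mem_product.1 hp.1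
    exact Finset.mem_coe.2 (Finset.mem_filter.2 ⟨Finset.mem_product.2 ⟨hp1.2, hp1.1⟩, hp.2⟩)
  · intro p _
    rfl
  · intro p _
    rfl

theorem card4_even : ((range 4).filter fun μ => μ % 2 = 0).card = 2 := by decide

theorem card4_two : ((range 4).filter fun μ => μ = 2).card = 1 := by decide

theorem card8_two : ((range 8).filter fun μ => μ % 4 = 2).card = 2 := by decide

theorem card8_a : ((range 8).filter fun μ => μ = 2).card = 1 := by decide

theorem card8_b : ((range 8).filter fun μ => μ = 6).card = 1 := by decide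

/-- squares -/
theorem sq_par (x : ℤ) : ∃ q, (x % 2 = 0 ∧ x ^ 2 = 4 * q) ∨ (x % 2 = 1 ∧ x ^ 2 = 8 * q + 1) := by
  rcases Int.emod_two_eq_zero_or_one x with hs | hs
  · obtain ⟨t, rfl⟩ : ∃ t, x = 2 * t := ⟨x / 2, by omega⟩
    exact ⟨t ^ 2, Or.inl ⟨hs, by ring⟩⟩
  · obtain ⟨t, rfl⟩ : ∃ t, x = 2 * t + 1 := ⟨x / 2, by omega⟩
    obtain ⟨w, hw⟩ := Int.even_mul_succ_self t
    exact ⟨w, Or.inr ⟨hs, by linear_combination 4 * hw⟩⟩

theorem cnt_four {m φ g β e b n : ℤ} (hg : φ * g = β ^ 2 + m) (hm : m % 4 = 1)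
    (hb : 5 * (e ^ 2 * φ) = 4 * n - b ^ 2)
    (h1 : φ % 2 = 1 → φ % 4 = 3) (h2 : g % 2 = 1 → g % 4 = 3) :
    ((range 4 ×ˢ range 4).filter fun p : ℕ × ℕ => (4 : ℤ) ∣ e * p.1 - 2 * b ∧
      CS 4 (4 * m) φ g (2 * β) p.1 p.2).card = if b % 2 = 0 then 2 else 1 := by
  obtain ⟨qe, hqe⟩ := sq_par e
  obtain ⟨qb, hqb⟩ := sq_par b
  obtain ⟨qβ, hqβ⟩ := sq_par β
  rcases Int.emod_two_eq_zero_or_one φ with hφ | hφ
  · -- the first coefficient is even
    obtain ⟨f, rfl⟩ : ∃ f, φ = 2 * f := ⟨φ / 2, by omega⟩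
    have hgo : g % 2 = 1 := by
      by_contra hc
      obtain ⟨g', rfl⟩ : ∃ g', g = 2 * g' := ⟨g / 2, by omega⟩
      have e1 : 2 * f * (2 * g') = 4 * (f * g') := by ring
      rw [e1] at hg
      generalize f * g' = k at hg
      omega
    have hfo : f % 2 = 1 := by
      by_contra hc
      obtain ⟨f', rfl⟩ : ∃ f', f = 2 * f' := ⟨f / 2, by omega⟩
      have e1 : 2 * (2 * f') * g = 4 * (f' * g) := by ring
      rw [e1] at hg
      generalize f' * g = k at hg
      omega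
    have hbe : b % 2 = 0 ∧ e % 2 = 0 := by
      have e1 : 5 * (e ^ 2 * (2 * f)) = 2 * (5 * (e ^ 2 * f)) := by ring
      rw [e1] at hb
      rcases hqe with ⟨k1, k2⟩ | ⟨k1, k2⟩
      · refine ⟨?_, k1⟩
        generalize 5 * (e ^ 2 * f) = k at hb
        omega
      · exfalso
        obtain ⟨f', rfl⟩ : ∃ f', f = 2 * f' + 1 := ⟨f / 2, by omega⟩
        rw [k2] at hb
        have e2 : 2 * (5 * ((8 * qe + 1) * (2 * f' + 1))) =
          4 * (5 * (4 * qe * (2 * f' + 1) + f') + 2) + 2 := by ring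
        rw [e2] at hb
        generalize 5 * (4 * qe * (2 * f' + 1) + f') = k at hb
        omega
    rw [if_pos hbe.1]
    refine Eq.trans ?_ card4_even
    refine graph_card' (by norm_num) (fun μ ν => (4 : ℤ) ∣ e * μ - 2 * b ∧
      CS 4 (4 * m) (2 * f) g (2 * β) μ ν) (fun ν => ν % 2 = 0)
      (fun ν => (β + 1) * ν + 2) ?_
    intro μ ν hμ hν
    rw [CS_symm, CS_four (by linarith : g * (2 * f) = β ^ 2 + m) hm (h2 hgo)]
    have k1 : ((ν : ℤ) % 2 = 0) ↔ ν % 2 = 0 := by omega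
    rw [k1]
    constructor
    · rintro ⟨_, h⟩
      exact h
    · rintro ⟨h, h'⟩
      refine ⟨?_, h, h'⟩
      obtain ⟨c, hc⟩ := h'
      push_cast at hc
      obtain ⟨ν', rfl⟩ : ∃ t, ν = 2 * t := ⟨ν / 2, by omega⟩
      obtain ⟨e', rfl⟩ : ∃ t, e = 2 * t := ⟨e / 2, by omega⟩
      obtain ⟨b', rfl⟩ : ∃ t, b = 2 * t := ⟨b / 2, by omega⟩
      push_cast at hc
      have : (μ : ℤ) = 2 * (2 * c + (β + 1) * ν' + 1) := by linarith
      rw [this]
      exact ⟨e' * (2 * c + (β + 1) * ν' + 1) - b', by ring⟩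
  · -- the first coefficient is odd
    obtain ⟨f, hf⟩ : ∃ f, φ = 2 * f + 1 := ⟨φ / 2, by omega⟩
    have hgr := graph_card (T := 4) (by norm_num) (fun μ ν => (4 : ℤ) ∣ e * μ - 2 * b ∧
      CS 4 (4 * m) φ g (2 * β) μ ν) (fun μ => μ % 2 = 0 ∧ (4 : ℤ) ∣ e * μ - 2 * b)
      (fun μ => (β + 1) * μ + 2) (by
        intro μ ν hμ hν
        rw [CS_four hg hm (h1 hφ)]
        have k1 : ((μ : ℤ) % 2 = 0) ↔ μ % 2 = 0 := by omega
        rw [k1]
        push_cast
        tauto)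
    rw [hgr]
    have hpar : e % 2 = b % 2 := by
      rcases hqe with ⟨k1, k2⟩ | ⟨k1, k2⟩
      · rw [k2] at hb
        have e1 : 5 * (4 * qe * φ) = 4 * (5 * (qe * φ)) := by ring
        rw [e1] at hb
        generalize 5 * (qe * φ) = k at hb
        omega
      · rw [k2, hf] at hb
        have e1 : 5 * ((8 * qe + 1) * (2 * f + 1)) = 2 * (5 * (4 * qe * (2 * f + 1)) + 5 * f + 2) + 1 := by
          ring
        rw [e1] at hb
        generalize 5 * (4 * qe * (2 * f + 1)) = k at hb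
        omega
    split_ifs with hb2
    · refine Eq.trans ?_ card4_even
      congr 1
      refine Finset.filter_congr fun μ hμ => ?_
      have hμ := Finset.mem_range.1 hμ
      interval_cases μ <;> omega
    · refine Eq.trans ?_ card4_two
      congr 1
      refine Finset.filter_congr fun μ hμ => ?_
      have hμ := Finset.mem_range.1 hμ
      interval_cases μ <;> omega

theorem exists_kap {φ β : ℤ} (hφ : φ % 2 = 1) (σ : ℤ) : ∃ κ, (4 : ℤ) ∣ κ * φ - (β + 2 * σ) := by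
  obtain ⟨q, hq⟩ := sq_par φ
  rcases hq with ⟨h, _⟩ | ⟨_, h⟩
  · omega
  · exact ⟨φ * (β + 2 * σ), ⟨2 * q * (β + 2 * σ), by linear_combination (β + 2 * σ) * h⟩⟩

theorem SG_odd {φ m : ℤ} (h : SG φ m) : ∃ σ : ℤ, (φ % 8 = 3 ∧ σ = 0) ∨
    (((φ % 8 = 1 ∧ m % 4 = 1) ∨ (φ % 8 = 5 ∧ m % 4 = 3)) ∧ σ = 1) := by
  rcases h with h | h
  · exact ⟨0, Or.inl ⟨h, rfl⟩⟩
  · exact ⟨1, Or.inr ⟨h, rfl⟩⟩

theorem cnt_eight {m φ g β e b n : ℤ} (hg : φ * g = β ^ 2 + 2 * m) (hm : m % 2 = 1)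
    (hb : 5 * (e ^ 2 * φ) = 8 * n - b ^ 2)
    (h1 : φ % 2 = 1 → SG φ m) (h2 : g % 2 = 1 → SG g m) :
    ((range 8 ×ˢ range 8).filter fun p : ℕ × ℕ => (8 : ℤ) ∣ e * p.1 - 2 * b ∧
      CS 8 (8 * m) φ g (2 * β) p.1 p.2).card = if b % 2 = 0 then 2 else 1 := by
  obtain ⟨qe, hqe⟩ := sq_par e
  obtain ⟨qb, hqb⟩ := sq_par b
  obtain ⟨qβ, hqβ⟩ := sq_par β
  rcases Int.emod_two_eq_zero_or_one φ with hφ | hφ
  · -- the first coefficient is even
    obtain ⟨f, rfl⟩ : ∃ f, φ = 2 * f := ⟨φ / 2, by omega⟩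
    have hgo : g % 2 = 1 := by
      by_contra hc
      obtain ⟨g', rfl⟩ : ∃ g', g = 2 * g' := ⟨g / 2, by omega⟩
      have e1 : 2 * f * (2 * g') = 4 * (f * g') := by ring
      rw [e1] at hg
      generalize f * g' = k at hg
      omega
    have hfo : f % 2 = 1 := by
      by_contra hc
      obtain ⟨f', rfl⟩ : ∃ f', f = 2 * f' := ⟨f / 2, by omega⟩
      have e1 : 2 * (2 * f') * g = 4 * (f' * g) := by ring
      rw [e1] at hg
      generalize f' * g = k at hg
      omega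
    obtain ⟨f', hf'⟩ : ∃ f', f = 2 * f' + 1 := ⟨f / 2, by omega⟩
    have hbe : e % 2 = 0 := by
      rcases hqe with ⟨k1, k2⟩ | ⟨k1, k2⟩
      · exact k1
      · exfalso
        rw [k2, hf'] at hb
        have e2 : 5 * ((8 * qe + 1) * (2 * (2 * f' + 1))) =
          4 * (5 * (4 * qe * (2 * f' + 1) + f') + 2) + 2 := by ring
        rw [e2] at hb
        generalize 5 * (4 * qe * (2 * f' + 1) + f') = k at hb
        omega
    obtain ⟨e', rfl⟩ : ∃ t, e = 2 * t := ⟨e / 2, by omega⟩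
    have hbb : ∃ t, b = 4 * t := by
      have e1 : 5 * ((2 * e') ^ 2 * (2 * f)) = 8 * (5 * (e' ^ 2 * f)) := by ring
      rw [e1] at hb
      generalize 5 * (e' ^ 2 * f) = k at hb
      have hb0 : b % 2 = 0 := by omega
      obtain ⟨b', rfl⟩ : ∃ t, b = 2 * t := ⟨b / 2, by omega⟩
      obtain ⟨qb', hqb'⟩ := sq_par b'
      have e3 : (2 * b') ^ 2 = 4 * b' ^ 2 := by ring
      rw [e3] at hb
      exact ⟨b' / 2, by omega⟩
    obtain ⟨b', rfl⟩ := hbb
    obtain ⟨σ, hσ⟩ := SG_odd (h2 hgo)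
    obtain ⟨κ, hκ⟩ := exists_kap (β := β) hgo σ
    rw [if_pos (by omega)]
    refine Eq.trans ?_ card8_two
    refine graph_card' (by norm_num) (fun μ ν => (8 : ℤ) ∣ 2 * e' * μ - 2 * (4 * b') ∧
      CS 8 (8 * m) (2 * f) g (2 * β) μ ν) (fun ν => ν % 4 = 2)
      (fun ν => κ * ν) ?_
    intro μ ν hμ hν
    have k1 : ((ν : ℤ) % 4 = 2) ↔ ν % 4 = 2 := by omega
    have hC := CS_symm.trans
      (CS_eight (μ := (ν : ℤ)) (ν := (μ : ℤ)) (by linarith : g * (2 * f) = β ^ 2 + 2 * m) hm hσ hκ)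
    constructor
    · rintro ⟨_, h⟩
      rw [hC, k1] at h
      exact h
    · rintro ⟨h, h'⟩
      have h3 : CS 8 (8 * m) (2 * f) g (2 * β) μ ν := by
        rw [hC, k1]
        exact ⟨h, h'⟩
      refine ⟨?_, h3⟩
      have h4 := h3.1
      obtain ⟨t, ht⟩ := even_of_sq (μ := (μ : ℤ)) (k := 5 * (2 * f)) (by
        have : (μ : ℤ) ^ 2 + 4 * (5 * (2 * f)) = (μ : ℤ) ^ 2 + 20 * (2 * f) := by ring
        rw [this]; exact dvd_trans (by norm_num) h4)
      rw [ht] at h4 ⊢
      obtain ⟨qt, hqt⟩ := sq_par t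
      have e4 : (2 * t) ^ 2 + 20 * (2 * f) = 4 * t ^ 2 + 8 * (5 * f) := by ring
      rw [e4] at h4
      have ht2 : t % 2 = 0 := by
        generalize 5 * f = k at h4
        omega
      obtain ⟨t', rfl⟩ : ∃ s, t = 2 * s := ⟨t / 2, by omega⟩
      exact ⟨e' * t' - b', by ring⟩
  · -- the first coefficient is odd
    obtain ⟨f, hf⟩ : ∃ f, φ = 2 * f + 1 := ⟨φ / 2, by omega⟩
    obtain ⟨σ, hσ⟩ := SG_odd (h1 hφ)
    obtain ⟨κ, hκ⟩ := exists_kap (β := β) hφ σ
    have hgr := graph_card (T := 8) (by norm_num) (fun μ ν => (8 : ℤ) ∣ e * μ - 2 * b ∧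
      CS 8 (8 * m) φ g (2 * β) μ ν) (fun μ => μ % 4 = 2 ∧ (8 : ℤ) ∣ e * μ - 2 * b)
      (fun μ => κ * μ) (by
        intro μ ν hμ hν
        rw [CS_eight hg hm hσ hκ]
        have k1 : ((μ : ℤ) % 4 = 2) ↔ μ % 4 = 2 := by omega
        rw [k1]
        push_cast
        tauto)
    rw [hgr]
    have hpar : e % 2 = b % 2 := by
      rcases hqe with ⟨k1, k2⟩ | ⟨k1, k2⟩
      · rw [k2] at hb
        have e1 : 5 * (4 * qe * φ) = 4 * (5 * (qe * φ)) := by ring
        rw [e1] at hb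
        generalize 5 * (qe * φ) = k at hb
        omega
      · rw [k2, hf] at hb
        have e1 : 5 * ((8 * qe + 1) * (2 * f + 1)) = 2 * (5 * (4 * qe * (2 * f + 1)) + 5 * f + 2) + 1 := by
          ring
        rw [e1] at hb
        generalize 5 * (4 * qe * (2 * f + 1)) = k at hb
        omega
    split_ifs with hb2
    · have he2 : e % 2 = 0 := by omega
      obtain ⟨e', rfl⟩ : ∃ t, e = 2 * t := ⟨e / 2, by omega⟩
      obtain ⟨b', rfl⟩ : ∃ t, b = 2 * t := ⟨b / 2, by omega⟩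
      have hpar' : e' % 2 = b' % 2 := by
        obtain ⟨qe', hqe'⟩ := sq_par e'
        obtain ⟨qb', hqb'⟩ := sq_par b'
        have hb' : 5 * (e' ^ 2 * φ) = 2 * n - b' ^ 2 := by
          apply mul_left_cancel₀ (by norm_num : (4 : ℤ) ≠ 0)
          linear_combination hb
        rcases hqe' with ⟨k1, k2⟩ | ⟨k1, k2⟩
        · rw [k2] at hb'
          have e1 : 5 * (4 * qe' * φ) = 4 * (5 * (qe' * φ)) := by ring
          rw [e1] at hb'
          generalize 5 * (qe' * φ) = k at hb'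
          omega
        · rw [k2, hf] at hb'
          have e1 : 5 * ((8 * qe' + 1) * (2 * f + 1)) =
            2 * (5 * (4 * qe' * (2 * f + 1)) + 5 * f + 2) + 1 := by ring
          rw [e1] at hb'
          generalize 5 * (4 * qe' * (2 * f + 1)) = k at hb'
          omega
      refine Eq.trans ?_ card8_two
      congr 1
      refine Finset.filter_congr fun μ hμ => ?_
      have hμ := Finset.mem_range.1 hμ
      clear hgr hb hg hqe hqb hqβ
      interval_cases μ <;> omega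
    · by_cases h4 : (e - b) % 4 = 0
      · refine Eq.trans ?_ card8_a
        congr 1
        refine Finset.filter_congr fun μ hμ => ?_
        have hμ := Finset.mem_range.1 hμ
        interval_cases μ <;> omega
      · refine Eq.trans ?_ card8_b
        congr 1
        refine Finset.filter_congr fun μ hμ => ?_
        have hμ := Finset.mem_range.1 hμ
        interval_cases μ <;> omega

/-- the Chinese remainder theorem for pairs -/
theorem crt_card {a c : ℕ} (ha : 0 < a) (hc : 0 < c) (h : Nat.Coprime a c)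
    (P Q : ℕ → ℕ → Prop) [∀ x y, Decidable (P x y)] [∀ x y, Decidable (Q x y)]
    (hP : ∀ x y, P x y ↔ P (x % a) (y % a)) (hQ : ∀ x y, Q x y ↔ Q (x % c) (y % c)) :
    ((range (a * c) ×ˢ range (a * c)).filter fun p : ℕ × ℕ => P p.1 p.2 ∧ Q p.1 p.2).card =
      ((range a ×ˢ range a).filter fun p : ℕ × ℕ => P p.1 p.2).card *
      ((range c ×ˢ range c).filter fun p : ℕ × ℕ => Q p.1 p.2).card := by
  rw [← Finset.card_product]
  refine Finset.card_nbij' (fun p => ((p.1 % a, p.2 % a), (p.1 % c, p.2 % c)))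
    (fun q => ((Nat.chineseRemainder h q.1.1 q.2.1 : ℕ) , (Nat.chineseRemainder h q.1.2 q.2.2 : ℕ)))
    ?_ ?_ ?_ ?_
  · intro p hp
    have hp := Finset.mem_filter.1 (Finset.mem_coe.1 hp)
    refine Finset.mem_coe.2 (Finset.mem_product.2 ⟨Finset.mem_filter.2 ⟨Finset.mem_product.2
      ⟨Finset.mem_range.2 (Nat.mod_lt _ ha), Finset.mem_range.2 (Nat.mod_lt _ ha)⟩,
        (hP _ _).1 hp.2.1⟩, Finset.mem_filter.2 ⟨Finset.mem_product.2
      ⟨Finset.mem_range.2 (Nat.mod_lt _ hc), Finset.mem_range.2 (Nat.mod_lt _ hc)⟩,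
        (hQ _ _).1 hp.2.2⟩⟩)
  · intro q hq
    have hq := Finset.mem_product.1 (Finset.mem_coe.1 hq)
    have hq1 := Finset.mem_filter.1 hq.1
    have hq2 := Finset.mem_filter.1 hq.2
    have hr1 := Finset.mem_product.1 hq1.1
    have hr2 := Finset.mem_product.1 hq2.1
    have s1 := Finset.mem_range.1 hr1.1
    have s2 := Finset.mem_range.1 hr1.2
    have s3 := Finset.mem_range.1 hr2.1
    have s4 := Finset.mem_range.1 hr2.2
    refine Finset.mem_coe.2 (Finset.mem_filter.2 ⟨Finset.mem_product.2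
      ⟨Finset.mem_range.2 (Nat.chineseRemainder_lt_mul h _ _ ha.ne' hc.ne'),
       Finset.mem_range.2 (Nat.chineseRemainder_lt_mul h _ _ ha.ne' hc.ne')⟩, ?_, ?_⟩)
    · rw [hP]
      have t1 : (Nat.chineseRemainder h q.1.1 q.2.1 : ℕ) % a = q.1.1 := by
        have := (Nat.chineseRemainder h q.1.1 q.2.1).2.1
        rw [Nat.ModEq, Nat.mod_eq_of_lt s1] at this
        exact this
      have t2 : (Nat.chineseRemainder h q.1.2 q.2.2 : ℕ) % a = q.1.2 := by
        have := (Nat.chineseRemainder h q.1.2 q.2.2).2.1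
        rw [Nat.ModEq, Nat.mod_eq_of_lt s2] at this
        exact this
      rw [t1, t2]
      exact hq1.2
    · rw [hQ]
      have t1 : (Nat.chineseRemainder h q.1.1 q.2.1 : ℕ) % c = q.2.1 := by
        have := (Nat.chineseRemainder h q.1.1 q.2.1).2.2
        rw [Nat.ModEq, Nat.mod_eq_of_lt s3] at this
        exact this
      have t2 : (Nat.chineseRemainder h q.1.2 q.2.2 : ℕ) % c = q.2.2 := by
        have := (Nat.chineseRemainder h q.1.2 q.2.2).2.2
        rw [Nat.ModEq, Nat.mod_eq_of_lt s4] at this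
        exact this
      rw [t1, t2]
      exact hq2.2
  · intro p hp
    have hp := Finset.mem_filter.1 (Finset.mem_coe.1 hp)
    have hp1 := Finset.mem_product.1 hp.1
    have key : ∀ x, x < a * c → (Nat.chineseRemainder h (x % a) (x % c) : ℕ) = x := by
      intro x hx
      have t1 := (Nat.chineseRemainder h (x % a) (x % c)).2.1
      have t2 := (Nat.chineseRemainder h (x % a) (x % c)).2.2
      have t3 : (Nat.chineseRemainder h (x % a) (x % c) : ℕ) ≡ x [MOD a * c] :=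
        (Nat.modEq_and_modEq_iff_modEq_mul h).1
          ⟨t1.trans (Nat.mod_modEq _ _), t2.trans (Nat.mod_modEq _ _)⟩
      rw [Nat.ModEq, Nat.mod_eq_of_lt hx,
        Nat.mod_eq_of_lt (Nat.chineseRemainder_lt_mul h _ _ ha.ne' hc.ne')] at t3
      exact t3
    exact Prod.ext (key _ (Finset.mem_range.1 hp1.1)) (key _ (Finset.mem_range.1 hp1.2))
  · intro q hq
    have hq := Finset.mem_product.1 (Finset.mem_coe.1 hq)
    have hq1 := Finset.mem_filter.1 hq.1
    have hq2 := Finset.mem_filter.1 hq.2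
    have hr1 := Finset.mem_product.1 hq1.1
    have hr2 := Finset.mem_product.1 hq2.1
    have key1 : ∀ x y, x < a → (Nat.chineseRemainder h x y : ℕ) % a = x := by
      intro x y hx
      have := (Nat.chineseRemainder h x y).2.1
      rw [Nat.ModEq, Nat.mod_eq_of_lt hx] at this
      exact this
    have key2 : ∀ x y, y < c → (Nat.chineseRemainder h x y : ℕ) % c = y := by
      intro x y hx
      have := (Nat.chineseRemainder h x y).2.2
      rw [Nat.ModEq, Nat.mod_eq_of_lt hx] at this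
      exact this
    refine Prod.ext (Prod.ext ?_ ?_) (Prod.ext ?_ ?_)
    · exact key1 _ _ (Finset.mem_range.1 hr1.1)
    · exact key1 _ _ (Finset.mem_range.1 hr1.2)
    · exact key2 _ _ (Finset.mem_range.1 hr2.1)
    · exact key2 _ _ (Finset.mem_range.1 hr2.2)

end Pool.Agent.N575.P15.PCE
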