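import Mathlib
import Pool.Agent.N575.P15.PCEb
import Pool.Agent.Y155.Z7.XCc

/-!
# The number of pairs with given Gram matrix for an even norm, part four: reciprocity
-/

set_option autoImplicit false
set_option linter.all false

namespace Pool.Agent.N575.P15.PCE

open Finset
open Pool.Agent.Z700 (hh)
open Pool.Agent.Y155.Z7 (hh_even hh_odd)

theorem prime_dvd_prod {p : ℕ} (hp : p.Prime) {s : Finset ℕ} (hs : ∀ q ∈ s, q.Prime)
    (h : p ∣ ∏ q ∈ s, q) : p ∈ s := by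
  obtain ⟨q, hq, hpq⟩ := (hp.prime.dvd_finsetProd_iff _).1 h
  rw [(Nat.prime_dvd_prime_iff_eq hp (hs q hq)).1 hpq]
  exact hq

/-- a value prime to a given odd number and congruent to the first coefficient modulo eight -/
theorem exists_xy (A B C N : ℕ) (hN : N ≠ 0) (hN2 : N % 2 = 1)
    (hprim : ∀ p, p.Prime → p ∣ N → p ∣ A → p ∣ C → ¬ p ∣ B) :
    ∃ x y : ℕ, Nat.Coprime x y ∧ x % 2 = 1 ∧ 8 ∣ y ∧
      ∀ p, p.Prime → p ∣ N → ¬ p ∣ A * x ^ 2 + B * x * y + C * y ^ 2 := by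
  obtain ⟨X, hX⟩ : ∃ X, X = N.primeFactors.filter (fun p => p ∣ A ∧ ¬ p ∣ C) := ⟨_, rfl⟩
  obtain ⟨Y, hY⟩ : ∃ Y, Y = N.primeFactors.filter (fun p => ¬ p ∣ A) := ⟨_, rfl⟩
  have hXp : ∀ q ∈ X, q.Prime := fun q hq => by
    rw [hX] at hq
    exact Nat.prime_of_mem_primeFactors (Finset.mem_filter.1 hq).1
  have hYp : ∀ q ∈ Y, q.Prime := fun q hq => by
    rw [hY] at hq
    exact Nat.prime_of_mem_primeFactors (Finset.mem_filter.1 hq).1
  have hx : ∀ p, p.Prime → p ∣ ∏ q ∈ X, q → p ∣ N ∧ p ∣ A ∧ ¬ p ∣ C := by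
    intro p hp h
    have := prime_dvd_prod hp hXp h
    rw [hX] at this
    have := Finset.mem_filter.1 this
    exact ⟨Nat.dvd_of_mem_primeFactors this.1, this.2⟩
  have hy : ∀ p, p.Prime → p ∣ ∏ q ∈ Y, q → p ∣ N ∧ ¬ p ∣ A := by
    intro p hp h
    have := prime_dvd_prod hp hYp h
    rw [hY] at this
    have := Finset.mem_filter.1 this
    exact ⟨Nat.dvd_of_mem_primeFactors this.1, this.2⟩
  have hx' : ∀ p, p.Prime → p ∣ N → p ∣ A → ¬ p ∣ C → p ∣ ∏ q ∈ X, q := by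
    intro p hp h1 h2 h3
    refine Finset.dvd_prod_of_mem (fun q => q) ?_
    rw [hX]
    exact Finset.mem_filter.2 ⟨Nat.mem_primeFactors.2 ⟨hp, h1, hN⟩, h2, h3⟩
  have hy' : ∀ p, p.Prime → p ∣ N → ¬ p ∣ A → p ∣ ∏ q ∈ Y, q := by
    intro p hp h1 h2
    refine Finset.dvd_prod_of_mem (fun q => q) ?_
    rw [hY]
    exact Finset.mem_filter.2 ⟨Nat.mem_primeFactors.2 ⟨hp, h1, hN⟩, h2⟩
  generalize ∏ q ∈ X, q = x at *
  generalize ∏ q ∈ Y, q = y at *
  have hxodd : x % 2 = 1 := by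
    by_contra h
    have h2 : 2 ∣ x := by omega
    have := (hx 2 Nat.prime_two h2).1
    omega
  have hN2' : ∀ p, p.Prime → p ∣ N → p ≠ 2 := by
    rintro p hp h rfl
    omega
  have hy8 : ∀ p, p.Prime → p ≠ 2 → p ∣ 8 * y → p ∣ y := by
    intro p hp h2 h
    rcases hp.dvd_mul.1 h with h | h
    · exfalso
      have : p ∣ 2 ^ 3 := by norm_num; exact h
      exact h2 ((Nat.prime_dvd_prime_iff_eq hp Nat.prime_two).1 (hp.dvd_of_dvd_pow this))
    · exact h
  refine ⟨x, 8 * y, ?_, hxodd, ⟨y, rfl⟩, ?_⟩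
  · apply Nat.coprime_of_dvd
    intro p hp h1 h2
    have h3 := hx p hp h1
    exact (hy p hp (hy8 p hp (hN2' p hp h3.1) h2)).2 h3.2.1
  · intro p hp hpN h
    have hp2 := hN2' p hp hpN
    by_cases hA : p ∣ A
    · by_cases hC : p ∣ C
      · have hB := hprim p hp hpN hA hC
        have h1 : p ∣ B * x * (8 * y) := by
          have e1 : p ∣ A * x ^ 2 := hA.mul_right _
          have e2 : p ∣ C * (8 * y) ^ 2 := hC.mul_right _
          rw [Nat.dvd_add_left e2, Nat.dvd_add_right e1] at h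
          exact h
        rcases hp.dvd_mul.1 h1 with h1 | h1
        · rcases hp.dvd_mul.1 h1 with h1 | h1
          · exact hB h1
          · exact (hx p hp h1).2.2 hC
        · exact (hy p hp (hy8 p hp hp2 h1)).2 hA
      · have h1 := hx' p hp hpN hA hC
        have h2 : p ∣ C * (8 * y) ^ 2 := by
          have e1 : p ∣ A * x ^ 2 + B * x * (8 * y) :=
            Nat.dvd_add (hA.mul_right _) ((h1.mul_left B).mul_right _)
          exact (Nat.dvd_add_right e1).1 h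
        rcases hp.dvd_mul.1 h2 with h2 | h2
        · exact hC h2
        · exact (hy p hp (hy8 p hp hp2 (hp.dvd_of_dvd_pow h2))).2 hA
    · have h1 := hy' p hp hpN hA
      have h1' : p ∣ 8 * y := h1.mul_left 8
      have h2 : p ∣ A * x ^ 2 := by
        have e1 : p ∣ B * x * (8 * y) := h1'.mul_left _
        have e2 : p ∣ C * (8 * y) ^ 2 := by
          rw [pow_two]; exact (h1'.mul_right (8 * y)).mul_left C
        rw [Nat.dvd_add_left e2, Nat.dvd_add_left e1] at h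
        exact h
      rcases hp.dvd_mul.1 h2 with h2 | h2
      · exact hA h2
      · exact hA (hx p hp (hp.dvd_of_dvd_pow h2)).2.1

/-- squares have symbol one -/
theorem jac_one {M : ℕ} {z w : ℤ} (h : (M : ℤ) ∣ z - w ^ 2) (hc : ∀ p : ℕ, p.Prime → p ∣ M → ¬ (p : ℤ) ∣ z) :
    jacobiSym z M = 1 := by
  have h1 : z % M = w ^ 2 % M := (Int.emod_emod_of_dvd _ (dvd_refl _)).symm.trans
    ((Int.emod_emod_of_dvd _ (dvd_refl _)).trans (Int.ModEq.symm (Int.modEq_iff_dvd.2 h)))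
  rw [jacobiSym.mod_left' h1]
  apply jacobiSym.sq_one'
  have : Nat.Coprime w.natAbs M := by
    apply Nat.coprime_of_dvd
    intro p hp h2 h3
    apply hc p hp h3
    have h4 : (p : ℤ) ∣ w := Int.natCast_dvd.2 h2
    have h5 : (p : ℤ) ∣ z - w ^ 2 := (Int.natCast_dvd_natCast.2 h3).trans h
    have h6 := Dvd.dvd.add h5 (h4.pow two_ne_zero)
    rwa [sub_add_cancel] at h6
  rw [Int.gcd_eq_natAbs, Int.natAbs_natCast]
  exact this

theorem jac_pm {z : ℤ} {M : ℕ} (hc : ∀ p : ℕ, p.Prime → p ∣ M → ¬ (p : ℤ) ∣ z) :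
    jacobiSym z M = 1 ∨ jacobiSym z M = -1 := by
  apply jacobiSym.eq_one_or_neg_one
  have : Nat.Coprime z.natAbs M := by
    apply Nat.coprime_of_dvd
    intro p hp h2 h3
    exact hc p hp h3 (Int.natCast_dvd.2 h2)
  rw [Int.gcd_eq_natAbs, Int.natAbs_natCast]
  exact this

theorem J5_neg (z : ℤ) : jacobiSym (-z) 5 = jacobiSym z 5 := by
  have h1 : (-z) = (-1) * z := by ring
  rw [h1, jacobiSym.mul_left]
  have : jacobiSym (-1) 5 = 1 := by norm_num
  rw [this, one_mul]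

theorem J5_two (z : ℤ) : jacobiSym (2 * z) 5 = -jacobiSym z 5 := by
  rw [jacobiSym.mul_left]
  have : jacobiSym 2 5 = -1 := by norm_num
  rw [this]; ring

theorem J5_four (z : ℤ) : jacobiSym (4 * z) 5 = jacobiSym z 5 := by
  rw [jacobiSym.mul_left]
  have : jacobiSym 4 5 = 1 := by norm_num
  rw [this, one_mul]

theorem five_dvd_of {p : ℕ} (hp : p.Prime) (h : p ∣ 5) : p = 5 :=
  (Nat.prime_dvd_prime_iff_eq hp (by norm_num)).1 h

theorem jac5_one {z w : ℤ} (h : (5 : ℤ) ∣ z - w ^ 2) (hc : ¬ (5 : ℤ) ∣ z) : jacobiSym z 5 = 1 := by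
  apply jac_one (w := w) (by exact_mod_cast h)
  intro p hp h5
  rw [five_dvd_of hp h5]
  exact hc

/-- the symbol at five in terms of a value of the form -/
theorem five_val {m φ g β e D : ℕ} (hg : φ * g = β ^ 2 + m) (h5 : 5 ∣ m) (h25 : ¬ 25 ∣ m)
    (hD : D = 20 * (e ^ 2 * φ)) (hD0 : 0 < D) (x y : ℤ) {a : ℤ}
    (ha : a = φ * x ^ 2 + 2 * β * x * y + g * y ^ 2) (ha5 : ¬ (5 : ℤ) ∣ a) :
    hh (4 * m) D 5 = jacobiSym ((m / 5 : ℕ) * a) 5 := by
  have p5 : Prime (5 : ℤ) := by norm_num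
  have p5' : Nat.Prime 5 := by norm_num
  obtain ⟨m5, rfl⟩ := h5
  have hm5 : ¬ 5 ∣ m5 := by
    rintro ⟨c, rfl⟩
    exact h25 ⟨c, by ring⟩
  have e0 : 5 * m5 / 5 = m5 := Nat.mul_div_cancel_left _ (by norm_num)
  rw [e0]
  have hgZ : (φ : ℤ) * g = β ^ 2 + 5 * m5 := by exact_mod_cast hg
  by_cases hφ : 5 ∣ φ
  · obtain ⟨φ1, rfl⟩ := hφ
    have hβ : 5 ∣ β := by
      apply p5'.dvd_of_dvd_pow (n := 2)
      have h1 : 5 ∣ β ^ 2 + 5 * m5 := by rw [← hg]; exact ⟨φ1 * g, by ring⟩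
      exact (Nat.dvd_add_left (Dvd.intro _ rfl)).1 h1
    obtain ⟨β1, rfl⟩ := hβ
    have h1 : φ1 * g = 5 * β1 ^ 2 + m5 := by
      apply Nat.eq_of_mul_eq_mul_left (by norm_num : 0 < 5)
      rw [← mul_assoc, hg]; ring
    have h1Z : (φ1 : ℤ) * g = 5 * β1 ^ 2 + m5 := by exact_mod_cast h1
    have h2 : ¬ 5 ∣ φ1 * g := by
      rw [h1]
      intro h
      exact hm5 ((Nat.dvd_add_right (Dvd.intro _ rfl)).1 h)
    have h3 : ¬ 5 ∣ φ1 := fun h => h2 (h.mul_right _)
    have h4 : ¬ 5 ∣ g := fun h => h2 (h.mul_left _)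
    rw [hh_even 5 p5' (4 * (5 * m5)) (10 * e) φ1 D (by rw [hD]; ring) hD0 h3, J5_neg]
    have hga : jacobiSym ((g : ℤ) * a) 5 = 1 := by
      apply jac5_one (w := g * y + 5 * β1 * x)
      · refine ⟨m5 * x ^ 2, ?_⟩
        rw [ha]
        push_cast at hgZ ⊢
        linear_combination x ^ 2 * hgZ
      · intro h
        rcases p5.dvd_or_dvd h with h | h
        · exact h4 (by exact_mod_cast h)
        · exact ha5 h
    have e1 : jacobiSym ((m5 : ℤ) * a) 5 = jacobiSym (φ1 * (g * a)) 5 := by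
      apply jacobiSym.mod_left'
      apply Int.ModEq.symm
      apply Int.modEq_iff_dvd.2
      refine ⟨-(β1 ^ 2 * a), ?_⟩
      push_cast
      linear_combination (-a) * h1Z
    rw [e1, jacobiSym.mul_left _ (g * a), hga, mul_one]
  · have h3 : ¬ 5 ∣ 4 * φ := by
      intro h
      rcases p5'.dvd_mul.1 h with h | h
      · revert h; decide
      · exact hφ h
    rw [hh_odd 5 p5' (4 * (5 * m5)) e (4 * φ) D (by rw [hD]; ring) hD0 h3]
    have e1 : 4 * (5 * m5) / 5 = 4 * m5 := by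
      rw [show 4 * (5 * m5) = 5 * (4 * m5) by ring]
      exact Nat.mul_div_cancel_left _ (by norm_num)
    rw [e1, J5_neg]
    push_cast
    have e2 : (4 * (m5 : ℤ)) * (4 * φ) = 4 * (4 * (m5 * φ)) := by ring
    rw [e2, J5_four, J5_four]
    have hφZ : ¬ (5 : ℤ) ∣ φ := fun h => hφ (by exact_mod_cast h)
    have hφa : jacobiSym ((φ : ℤ) * a) 5 = 1 := by
      apply jac5_one (w := φ * x + β * y)
      · refine ⟨m5 * y ^ 2, ?_⟩
        rw [ha]
        linear_combination y ^ 2 * hgZ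
      · intro h
        rcases p5.dvd_or_dvd h with h | h
        · exact hφZ h
        · exact ha5 h
    rw [jacobiSym.mul_left] at hφa
    rw [jacobiSym.mul_left, jacobiSym.mul_left]
    have h7 : jacobiSym (φ : ℤ) 5 = 1 ∨ jacobiSym (φ : ℤ) 5 = -1 := by
      apply jac_pm
      intro p hp h5
      rw [five_dvd_of hp h5]
      exact hφZ
    rcases h7 with h7 | h7
    · rw [h7] at hφa ⊢
      rw [one_mul] at hφa
      rw [hφa]
    · rw [h7] at hφa ⊢
      have : jacobiSym a 5 = -1 := by linarith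
      rw [this]

/-- the value modulo `8` of the numbers prime to `10 m` represented by the form -/
theorem recip_core {m m0 a : ℕ} (ha2 : a % 2 = 1)
    (hm : (m % 4 = 1 ∧ m = m0) ∨ (m % 4 = 2 ∧ m = 2 * m0))
    (hcm : ∀ p, p.Prime → p ∣ m → ¬ p ∣ a)
    (h1 : jacobiSym (-(m : ℤ)) a = 1)
    (h2 : jacobiSym a m0 = jacobiSym (-1) m0 * (if m % 4 = 1 then -1 else 1)) :
    (m % 4 = 1 → a % 4 = 3) ∧ (m % 4 = 2 → (a % 8 = 3 ∨ (a % 8 = 1 ∧ m0 % 4 = 1) ∨
      (a % 8 = 5 ∧ m0 % 4 = 3))) := by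
  have hao : Odd a := Nat.odd_iff.2 ha2
  have h4 : jacobiSym (-1) a = ZMod.χ₄ a := jacobiSym.at_neg_one hao
  rcases hm with ⟨hm1, rfl⟩ | ⟨hm2, hm0⟩
  · refine ⟨fun _ => ?_, fun h => by omega⟩
    rw [if_pos hm1] at h2
    have hmo : Odd m := Nat.odd_iff.2 (by omega)
    have h3 : jacobiSym (-1) m = 1 := by
      rw [jacobiSym.at_neg_one hmo, ZMod.χ₄_nat_one_mod_four hm1]
    rw [h3, one_mul] at h2
    have h5 := jacobiSym.quadratic_reciprocity_one_mod_four hm1 hao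
    have h6 : -(m : ℤ) = (-1) * m := by ring
    rw [h6, jacobiSym.mul_left, h5, h2, h4] at h1
    by_contra hc
    have hc1 : a % 4 = 1 := by omega
    rw [ZMod.χ₄_nat_one_mod_four hc1] at h1
    norm_num at h1
  · refine ⟨fun h => by omega, fun _ => ?_⟩
    rw [if_neg (by omega), mul_one] at h2
    have hm0o : m0 % 2 = 1 := by omega
    have hm0' : Odd m0 := Nat.odd_iff.2 hm0o
    have h6 : -(m : ℤ) = (-2) * m0 := by rw [hm0]; push_cast; ring
    rw [h6, jacobiSym.mul_left, jacobiSym.at_neg_two hao, ZMod.χ₈'_nat_eq_if_mod_eight] at h1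
    rw [jacobiSym.at_neg_one hm0'] at h2
    rw [if_neg (by omega)] at h1
    have h8 : m0 % 4 = 1 ∨ m0 % 4 = 3 := by omega
    rcases h8 with h8 | h8
    · have h5 := jacobiSym.quadratic_reciprocity_one_mod_four h8 hao
      rw [ZMod.χ₄_nat_one_mod_four h8] at h2
      rw [h5, h2] at h1
      split_ifs at h1 with h9
      · omega
      · norm_num at h1
    · rw [ZMod.χ₄_nat_three_mod_four h8] at h2
      have h9 : a % 4 = 1 ∨ a % 4 = 3 := by omega
      rcases h9 with h9 | h9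
      · have h5 := jacobiSym.quadratic_reciprocity_one_mod_four h9 hm0'
        rw [← h5, h2] at h1
        split_ifs at h1 with h10
        · norm_num at h1
        · omega
      · have h5 := jacobiSym.quadratic_reciprocity_three_mod_four h8 h9
        rw [h5, h2] at h1
        split_ifs at h1 with h10
        · omega
        · norm_num at h1

end Pool.Agent.N575.P15.PCE
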