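import Mathlib
import Pool.Agent.N575.P15.PCEa
import Pool.Agent.N575.P15.PCEc
import Pool.Agent.N575.P15.PCEd
import Pool.Agent.N575.P15.PC5

/-!
# The number of pairs with given Gram matrix for an even norm, part five: the fibres
-/

set_option autoImplicit false
set_option linter.all false

namespace Pool.Agent.N575.P15.PCE

open Finset
open Pool.Agent.Z700 (hh fac)
open Pool.Agent.Y155.Z7 (C C_eq C_prod)
open Pool.Agent.N972.PC15 (XX TT mem_TT C_local)
open Pool.Agent.N575.P15.PC5 (C_five)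

/-- the sign at two of the odd coefficients -/
theorem recip {m m0 A B C : ℕ} (hs : Squarefree m)
    (hm : (m % 4 = 1 ∧ m = m0) ∨ (m % 4 = 2 ∧ m = 2 * m0))
    (hAC : A * C = B ^ 2 + m) (hA : A % 2 = 1) {μ ν : ℤ} (h1 : (m0 : ℤ) ∣ μ ^ 2 + 20 * A)
    (h2 : (m0 : ℤ) ∣ 10 * (2 * B) + μ * ν) (h3 : (m0 : ℤ) ∣ 20 * C + ν ^ 2)
    (h5 : (¬ 5 ∣ m ∧ jacobiSym m 5 = -1) ∨ (5 ∣ m ∧ ∀ x y a : ℤ,
      a = A * x ^ 2 + 2 * B * x * y + C * y ^ 2 → ¬ (5 : ℤ) ∣ a →
        jacobiSym ((m / 5 : ℕ) * a) 5 = -1)) :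
    (m % 4 = 1 → A % 4 = 3) ∧ (m % 4 = 2 → SG A m0) := by
  have hm0 : m ≠ 0 := hs.ne_zero
  have hm00 : m0 ≠ 0 := by
    rintro rfl
    omega
  have hm0o : m0 % 2 = 1 := by omega
  have hm0m : m0 ∣ m := by
    rcases hm with ⟨_, h⟩ | ⟨_, h⟩
    · rw [h]
    · exact ⟨2, by rw [h]; ring⟩
  have hsq : ∀ p : ℕ, p.Prime → ¬ p * p ∣ m := fun p hp h =>
    hp.one_lt.ne' (Nat.isUnit_iff.1 (hs p h))
  have hprim : ∀ p : ℕ, p.Prime → p ∣ 5 * m0 → p ∣ A → p ∣ C → ¬ p ∣ 2 * B := by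
    intro p hp hpN hpA hpC hpB
    have hp2 : p ≠ 2 := by
      rintro rfl
      omega
    have hpB' : p ∣ B := by
      rcases hp.dvd_mul.1 hpB with h | h
      · exact absurd ((Nat.prime_dvd_prime_iff_eq hp Nat.prime_two).1 h) hp2
      · exact h
    apply hsq p hp
    have e1 : p * p ∣ B ^ 2 + m := by rw [← hAC]; exact Nat.mul_dvd_mul hpA hpC
    have e2 : p * p ∣ B ^ 2 := by rw [pow_two]; exact Nat.mul_dvd_mul hpB' hpB'
    exact (Nat.dvd_add_right e2).1 e1
  obtain ⟨x, y, hxy, hx2, hy8, hval⟩ := exists_xy A (2 * B) C (5 * m0) (by omega) (by omega) hprim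
  obtain ⟨a, ha⟩ : ∃ a, a = A * x ^ 2 + 2 * B * x * y + C * y ^ 2 := ⟨_, rfl⟩
  rw [← ha] at hval
  have haZ : (a : ℤ) = A * x ^ 2 + 2 * B * x * y + C * y ^ 2 := by rw [ha]; push_cast; ring
  have hACZ : (A : ℤ) * C = B ^ 2 + m := by exact_mod_cast hAC
  have ha8 : a % 8 = A % 8 := by
    obtain ⟨y', rfl⟩ := hy8
    obtain ⟨w, hw⟩ : ∃ w, x ^ 2 = 8 * w + 1 := by
      obtain ⟨t, rfl⟩ : ∃ t, x = 2 * t + 1 := ⟨x / 2, by omega⟩
      obtain ⟨w, hw⟩ := Nat.even_mul_succ_self t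
      exact ⟨w, by linear_combination 4 * hw⟩
    have : a = 8 * (A * w + 2 * B * x * y' + 8 * C * y' ^ 2) + A := by
      rw [ha, hw]; ring
    rw [this]
    omega
  have ha2 : a % 2 = 1 := by omega
  have hcm : ∀ p, p.Prime → p ∣ m → ¬ p ∣ a := by
    intro p hp hpm hpa
    by_cases hp2 : p = 2
    · subst hp2
      omega
    · refine hval p hp (Dvd.dvd.mul_left ?_ 5) hpa
      rcases hm with ⟨_, h⟩ | ⟨_, h⟩
      · rw [← h]; exact hpm
      · rw [h] at hpm
        rcases hp.dvd_mul.1 hpm with h' | h'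
        · exact absurd ((Nat.prime_dvd_prime_iff_eq hp Nat.prime_two).1 h') hp2
        · exact h'
  have ha5 : ¬ (5 : ℤ) ∣ a := by
    intro h
    exact hval 5 (by norm_num) (Dvd.intro _ rfl) (by exact_mod_cast h)
  have ha5' : jacobiSym (a : ℤ) 5 = 1 ∨ jacobiSym (a : ℤ) 5 = -1 := by
    apply jac_pm
    intro p hp h5
    rw [five_dvd_of hp h5]
    exact ha5
  -- the symbol of `-m` modulo `a`
  have hJ1 : jacobiSym (-(m : ℤ)) a = 1 := by
    have hc : IsCoprime (x : ℤ) (y : ℤ) := Nat.isCoprime_iff_coprime.2 hxy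
    obtain ⟨v, u, huv⟩ := hc
    apply jac_one (w := A * x * (-u) + B * (x * v + y * (-u)) + C * y * v)
    · refine ⟨-(A * (-u) ^ 2 + 2 * B * (-u) * v + C * v ^ 2), ?_⟩
      rw [haZ]
      have huv' : v * (x : ℤ) + u * y = 1 := huv
      linear_combination ((v * (x : ℤ) + u * y) ^ 2) * hACZ + m * (v * x + u * y + 1) * huv'
    · intro p hp hpa h
      have h' : (p : ℤ) ∣ m := (Int.dvd_neg).1 h
      exact hcm p hp (by exact_mod_cast h') hpa
  -- the symbol of `a` modulo `m0`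
  have hw : (m0 : ℤ) ∣ -20 * a - (μ * x + ν * y) ^ 2 := by
    obtain ⟨c1, hc1⟩ := h1
    obtain ⟨c2, hc2⟩ := h2
    obtain ⟨c3, hc3⟩ := h3
    refine ⟨-(c1 * x ^ 2 + 2 * c2 * x * y + c3 * y ^ 2), ?_⟩
    rw [haZ]
    linear_combination (-(x : ℤ) ^ 2) * hc1 - 2 * x * y * hc2 - (y : ℤ) ^ 2 * hc3
  have hJ20 : ∀ M : ℕ, M % 2 = 1 → M ∣ m0 → ¬ 5 ∣ M →
      jacobiSym (-1) M * jacobiSym M 5 * jacobiSym a M = 1 := by
    intro M hM2 hMm hM5
    have h1 : jacobiSym (-20 * a) M = 1 := by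
      apply jac_one (dvd_trans (Int.natCast_dvd_natCast.2 hMm) hw)
      intro p hp hpM h
      have h' : (p : ℤ) ∣ (20 * a : ℕ) := by
        have e : (-20 * (a : ℤ)) = -((20 * a : ℕ) : ℤ) := by push_cast; ring
        rw [e] at h
        exact (Int.dvd_neg).1 h
      have h'' : p ∣ 20 * a := by exact_mod_cast h'
      rcases hp.dvd_mul.1 h'' with h6 | h6
      · have h20 : (20 : ℕ) = 2 ^ 2 * 5 := by norm_num
        rw [h20] at h6
        rcases hp.dvd_mul.1 h6 with h6 | h6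
        · have := (Nat.prime_dvd_prime_iff_eq hp Nat.prime_two).1 (hp.dvd_of_dvd_pow h6)
          subst this
          omega
        · have := five_dvd_of hp h6
          subst this
          exact hM5 hpM
      · exact hcm p hp ((hpM.trans hMm).trans hm0m) h6
    have hMo : Odd M := Nat.odd_iff.2 hM2
    have e : (-20 * (a : ℤ)) = (-1) * (5 * ((2 : ℤ) ^ 2 * a)) := by ring
    have hrec := jacobiSym.quadratic_reciprocity_one_mod_four (a := 5) (by norm_num) hMo
    have h4 : jacobiSym ((2 : ℤ) ^ 2) M = 1 := by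
      apply jac_one (w := 2) (by simp)
      intro p hp hpM h
      have h6 : p ∣ 2 ^ 2 := by exact_mod_cast h
      have := (Nat.prime_dvd_prime_iff_eq hp Nat.prime_two).1 (hp.dvd_of_dvd_pow h6)
      subst this
      omega
    rw [e, jacobiSym.mul_left, jacobiSym.mul_left, jacobiSym.mul_left, h4] at h1
    have h5' : jacobiSym 5 M = jacobiSym M 5 := by exact_mod_cast hrec
    rw [h5'] at h1
    linarith
  have hneg : ∀ M : ℕ, M % 2 = 1 → jacobiSym (-1) M = 1 ∨ jacobiSym (-1) M = -1 := by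
    intro M hM
    apply jac_pm
    intro p hp _ h
    have : (p : ℤ) ∣ 1 := (Int.dvd_neg).1 h
    have h' : p ∣ 1 := by exact_mod_cast this
    exact hp.one_lt.ne' (Nat.dvd_one.1 h')
  have hJ2 : jacobiSym a m0 = jacobiSym (-1) m0 * (if m % 4 = 1 then -1 else 1) := by
    rcases h5 with ⟨h5m, hJm⟩ | ⟨h5m, hJm⟩
    · have h50 : ¬ 5 ∣ m0 := fun h => h5m (h.trans hm0m)
      have h6 := hJ20 m0 hm0o (dvd_refl _) h50
      have h7 : jacobiSym m0 5 = if m % 4 = 1 then -1 else 1 := by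
        rcases hm with ⟨h8, h9⟩ | ⟨h8, h9⟩
        · rw [if_pos h8, ← h9, hJm]
        · rw [if_neg (by omega)]
          rw [h9] at hJm
          push_cast at hJm
          rw [J5_two] at hJm
          linarith
      rw [← h7]
      rcases hneg m0 hm0o with h8 | h8
      · rw [h8] at h6 ⊢
        split_ifs at h7 with h9
        · rw [h7] at h6 ⊢; linarith
        · rw [h7] at h6 ⊢; linarith
      · rw [h8] at h6 ⊢
        split_ifs at h7 with h9
        · rw [h7] at h6 ⊢; linarith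
        · rw [h7] at h6 ⊢; linarith
    · have h5m0 : 5 ∣ m0 := by
        rcases hm with ⟨_, h9⟩ | ⟨_, h9⟩
        · rw [← h9]; exact h5m
        · rw [h9] at h5m
          rcases (Nat.Prime.dvd_mul (by norm_num : Nat.Prime 5)).1 h5m with h | h
          · exact absurd h (by norm_num)
          · exact h
      obtain ⟨M, rfl⟩ := h5m0
      have hM5 : ¬ 5 ∣ M := by
        rintro ⟨c, rfl⟩
        exact hsq 5 (by norm_num) (dvd_trans ⟨c, by ring⟩ hm0m)
      have h6 := hJ20 M (by omega) (Dvd.intro_left _ rfl) hM5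
      have h7 := hJm x y a haZ ha5
      have h8 : jacobiSym ((M : ℤ) * a) 5 = if m % 4 = 1 then -1 else 1 := by
        rcases hm with ⟨h8, h9⟩ | ⟨h8, h9⟩
        · rw [if_pos h8]
          have : m / 5 = M := by rw [h9]; exact Nat.mul_div_cancel_left _ (by norm_num)
          rw [this] at h7
          exact h7
        · rw [if_neg (by omega)]
          have : m / 5 = 2 * M := by
            rw [h9, show 2 * (5 * M) = 5 * (2 * M) by ring]
            exact Nat.mul_div_cancel_left _ (by norm_num)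
          rw [this] at h7
          push_cast at h7
          rw [mul_assoc, J5_two] at h7
          linarith
      rw [← h8]
      have e1 : jacobiSym (a : ℤ) (5 * M) = jacobiSym a 5 * jacobiSym a M := by
        haveI : NeZero M := ⟨by rintro rfl; omega⟩
        exact jacobiSym.mul_right _ _ _
      have e2 : jacobiSym (-1) (5 * M) = jacobiSym (-1) M := by
        haveI : NeZero M := ⟨by rintro rfl; omega⟩
        rw [jacobiSym.mul_right]
        have : jacobiSym (-1) 5 = 1 := by norm_num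
        rw [this, one_mul]
      rw [e1, e2, jacobiSym.mul_left]
      have h9 : jacobiSym (M : ℤ) 5 = 1 ∨ jacobiSym (M : ℤ) 5 = -1 := by
        apply jac_pm
        intro p hp h5
        rw [five_dvd_of hp h5]
        intro h
        exact hM5 (by exact_mod_cast h)
      have h12 : jacobiSym (a : ℤ) M = jacobiSym (-1) M * jacobiSym (M : ℤ) 5 := by
        rcases hneg M (by omega) with h10 | h10 <;> rcases h9 with h9 | h9 <;>
          rw [h10, h9] at h6 ⊢ <;> linarith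
      rw [h12]
      ring
  obtain ⟨r1, r2⟩ := recip_core ha2 hm hcm hJ1 hJ2
  refine ⟨fun h => ?_, fun h => ?_⟩
  · have := r1 h
    omega
  · have := r2 h
    unfold SG
    omega

/-! ### divisibility -/

theorem dvd_of_primes {m : ℕ} (hs : Squarefree m) (k : ℕ) (X : ℤ)
    (h : ∀ p : ℕ, p.Prime → p ∣ m → (p : ℤ) ^ k ∣ X) : (m : ℤ) ^ k ∣ X := by
  have h1 : (m : ℤ) ^ k = ∏ p ∈ m.primeFactors, (p : ℤ) ^ k := by
    rw [Finset.prod_pow, ← Nat.cast_prod, Nat.prod_primeFactors_of_squarefree hs]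
  rw [h1]
  apply Finset.prod_dvd_of_coprime
  · intro p hp q hq hpq
    have hp' := Nat.prime_of_mem_primeFactors hp
    have hq' := Nat.prime_of_mem_primeFactors hq
    exact IsCoprime.pow (Nat.isCoprime_iff_coprime.2 ((Nat.coprime_primes hp' hq').2 hpq))
  · intro p hp
    exact h p (Nat.prime_of_mem_primeFactors hp) (Nat.dvd_of_mem_primeFactors hp)

/-- the additional conditions hold away from two -/
theorem auto_odd {m0 T : ℕ} (hs : Squarefree m0) (h2 : m0 % 2 = 1) (hT : Nat.Coprime T m0)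
    {φ g β μ ν : ℤ} (hg : 4 * φ * g = β ^ 2 + (T * m0 : ℕ))
    (h1 : (m0 : ℤ) ∣ μ ^ 2 + 20 * φ) (h3 : (m0 : ℤ) ∣ 10 * β + μ * ν)
    (h4 : (m0 : ℤ) ∣ 20 * g + ν ^ 2) :
    (m0 : ℤ) ∣ β * ν - 2 * g * μ ∧ (m0 : ℤ) ∣ β * μ - 2 * φ * ν ∧
      (m0 : ℤ) ^ 2 ∣ 5 * (T * m0 : ℕ) + (g * μ ^ 2 - β * μ * ν + φ * ν ^ 2) := by
  have key : ∀ p : ℕ, p.Prime → p ∣ m0 → (p : ℤ) ∣ β * ν - 2 * g * μ ∧ (p : ℤ) ∣ β * μ - 2 * φ * ν ∧
      (p : ℤ) ^ 2 ∣ 5 * (T * m0 : ℕ) + (g * μ ^ 2 - β * μ * ν + φ * ν ^ 2) := by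
    intro p hp hpm
    have hpZ : Prime (p : ℤ) := Nat.prime_iff_prime_int.1 hp
    have hpm' : (p : ℤ) ∣ m0 := Int.natCast_dvd_natCast.2 hpm
    have hp2 : p ≠ 2 := by
      rintro rfl
      omega
    have hp2Z : ¬ (p : ℤ) ∣ 2 := by
      intro h
      have : p ∣ 2 := by exact_mod_cast h
      exact hp2 ((Nat.prime_dvd_prime_iff_eq hp Nat.prime_two).1 this)
    have k1 := hpm'.trans h1
    have k3 := hpm'.trans h3
    have k4 := hpm'.trans h4
    have hX : (p : ℤ) ∣ β * ν - 2 * g * μ ∧ (p : ℤ) ∣ β * μ - 2 * φ * ν := by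
      by_cases hp5 : p = 5
      · subst hp5
        have hμ : (5 : ℤ) ∣ μ := by
          apply hpZ.dvd_of_dvd_pow (n := 2)
          obtain ⟨c, hc⟩ := k1
          exact ⟨c - 4 * φ, by push_cast at hc ⊢; linear_combination hc⟩
        have hν : (5 : ℤ) ∣ ν := by
          apply hpZ.dvd_of_dvd_pow (n := 2)
          obtain ⟨c, hc⟩ := k4
          exact ⟨c - 4 * g, by push_cast at hc ⊢; linear_combination hc⟩
        exact ⟨Dvd.dvd.sub (hν.mul_left _) (hμ.mul_left _),
          Dvd.dvd.sub (hμ.mul_left _) (hν.mul_left _)⟩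
      · have hp10 : ¬ (p : ℤ) ∣ 10 := by
          intro h
          have h' : p ∣ 10 := by exact_mod_cast h
          have e : (10 : ℕ) = 2 * 5 := by norm_num
          rw [e] at h'
          rcases hp.dvd_mul.1 h' with h' | h'
          · exact hp2 ((Nat.prime_dvd_prime_iff_eq hp Nat.prime_two).1 h')
          · exact hp5 (five_dvd_of hp h')
        constructor
        · have : (p : ℤ) ∣ 10 * (β * ν - 2 * g * μ) := by
            have e : 10 * (β * ν - 2 * g * μ) = (10 * β + μ * ν) * ν - (20 * g + ν ^ 2) * μ := by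
              ring
            rw [e]
            exact Dvd.dvd.sub (k3.mul_right _) (k4.mul_right _)
          exact (hpZ.dvd_or_dvd this).resolve_left hp10
        · have : (p : ℤ) ∣ 10 * (β * μ - 2 * φ * ν) := by
            have e : 10 * (β * μ - 2 * φ * ν) = (10 * β + μ * ν) * μ - (μ ^ 2 + 20 * φ) * ν := by
              ring
            rw [e]
            exact Dvd.dvd.sub (k3.mul_right _) (k1.mul_right _)
          exact (hpZ.dvd_or_dvd this).resolve_left hp10
    refine ⟨hX.1, hX.2, ?_⟩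
    have hn : (p : ℤ) ∣ ((T * m0 : ℕ) : ℤ) := Int.natCast_dvd_natCast.2 (hpm.mul_left T)
    have j1 : (p : ℤ) ^ 2 ∣ 4 * φ * (5 * (T * m0 : ℕ) + (g * μ ^ 2 - β * μ * ν + φ * ν ^ 2)) := by
      have e : 4 * φ * (5 * (T * m0 : ℕ) + (g * μ ^ 2 - β * μ * ν + φ * ν ^ 2)) =
          (T * m0 : ℕ) * (μ ^ 2 + 20 * φ) + (β * μ - 2 * φ * ν) ^ 2 := by
        linear_combination μ ^ 2 * hg
      rw [e]
      refine Dvd.dvd.add ?_ (pow_dvd_pow_of_dvd hX.2 2)
      rw [pow_two]
      exact mul_dvd_mul hn k1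
    have j2 : (p : ℤ) ^ 2 ∣ 4 * g * (5 * (T * m0 : ℕ) + (g * μ ^ 2 - β * μ * ν + φ * ν ^ 2)) := by
      have e : 4 * g * (5 * (T * m0 : ℕ) + (g * μ ^ 2 - β * μ * ν + φ * ν ^ 2)) =
          (T * m0 : ℕ) * (20 * g + ν ^ 2) + (β * ν - 2 * g * μ) ^ 2 := by
        linear_combination ν ^ 2 * hg
      rw [e]
      refine Dvd.dvd.add ?_ (pow_dvd_pow_of_dvd hX.1 2)
      rw [pow_two]
      exact mul_dvd_mul hn k4
    have hp4 : ¬ (p : ℤ) ∣ 4 := by
      intro h
      have e : (4 : ℤ) = 2 * 2 := by norm_num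
      rw [e] at h
      rcases hpZ.dvd_or_dvd h with h | h <;> exact hp2Z h
    by_cases hφ : (p : ℤ) ∣ φ
    · by_cases hgg : (p : ℤ) ∣ g
      · exfalso
        have l1 : (p : ℤ) ^ 2 ∣ β ^ 2 + (T * m0 : ℕ) := by
          rw [← hg, pow_two, mul_assoc]
          exact (mul_dvd_mul hφ hgg).mul_left 4
        have l2 : (p : ℤ) ∣ β := by
          apply hpZ.dvd_of_dvd_pow (n := 2)
          have := (dvd_trans (dvd_pow_self _ two_ne_zero) l1 : (p : ℤ) ∣ _)
          exact (Int.dvd_iff_dvd_of_dvd_add this).2 hn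
        have l3 : (p : ℤ) ^ 2 ∣ ((T * m0 : ℕ) : ℤ) := by
          have := Int.dvd_sub l1 (pow_dvd_pow_of_dvd l2 2)
          rwa [add_sub_cancel_left] at this
        have l4 : p ^ 2 ∣ T * m0 := by exact_mod_cast l3
        have l5 : Nat.Coprime (p ^ 2) T := by
          apply Nat.Coprime.pow_left
          exact Nat.Coprime.coprime_dvd_left hpm hT.symm
        have l6 := l5.dvd_of_dvd_mul_left l4
        rw [pow_two] at l6
        exact hp.one_lt.ne' (Nat.isUnit_iff.1 (hs p l6))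
      · have hc : IsCoprime ((p : ℤ) ^ 2) (4 * g) := by
          apply IsCoprime.pow_left
          rw [Prime.coprime_iff_not_dvd hpZ]
          intro h
          rcases hpZ.dvd_or_dvd h with h | h
          · exact hp4 h
          · exact hgg h
        exact hc.dvd_of_dvd_mul_left j2
    · have hc : IsCoprime ((p : ℤ) ^ 2) (4 * φ) := by
        apply IsCoprime.pow_left
        rw [Prime.coprime_iff_not_dvd hpZ]
        intro h
        rcases hpZ.dvd_or_dvd h with h | h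
        · exact hp4 h
        · exact hφ h
      exact hc.dvd_of_dvd_mul_left j1
  refine ⟨?_, ?_, ?_⟩
  · have := dvd_of_primes hs 1 (β * ν - 2 * g * μ) (fun p hp h => by
      rw [pow_one]; exact (key p hp h).1)
    rwa [pow_one] at this
  · have := dvd_of_primes hs 1 (β * μ - 2 * φ * ν) (fun p hp h => by
      rw [pow_one]; exact (key p hp h).2.1)
    rwa [pow_one] at this
  · exact dvd_of_primes hs 2 _ (fun p hp h => (key p hp h).2.2)

theorem CS_shift {T n1 φ g β μ ν : ℤ} (k l : ℤ) (h : CS T n1 φ g β μ ν) :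
    CS T n1 φ g β (μ + T * k) (ν + T * l) := by
  obtain ⟨⟨a1, h1⟩, ⟨a2, h2⟩, ⟨a3, h3⟩, ⟨a4, h4⟩, ⟨a5, h5⟩, ⟨a6, h6⟩⟩ := h
  refine ⟨⟨a1 + 2 * μ * k + T * k ^ 2, by linear_combination h1⟩,
    ⟨a2 + μ * l + ν * k + T * k * l, by linear_combination h2⟩,
    ⟨a3 + 2 * ν * l + T * l ^ 2, by linear_combination h3⟩,
    ⟨a4 + β * l - 2 * g * k, by linear_combination h4⟩,
    ⟨a5 + β * k - 2 * φ * l, by linear_combination h5⟩,
    ⟨a6 - a4 * k - a5 * l + g * k ^ 2 - β * k * l + φ * l ^ 2, ?_⟩⟩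
  linear_combination h6 - T * k * h4 - T * l * h5

theorem CS_mod {T n1 φ g β : ℤ} (x y : ℤ) :
    CS T n1 φ g β x y ↔ CS T n1 φ g β (x % T) (y % T) := by
  constructor
  · intro h
    have := CS_shift (-(x / T)) (-(y / T)) h
    have e1 : x + T * -(x / T) = x % T := by
      have := Int.emod_add_mul_ediv x T
      linarith
    have e2 : y + T * -(y / T) = y % T := by
      have := Int.emod_add_mul_ediv y T
      linarith
    rwa [e1, e2] at this
  · intro h
    have := CS_shift (x / T) (y / T) h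
    rwa [Int.emod_add_mul_ediv, Int.emod_add_mul_ediv] at this

end Pool.Agent.N575.P15.PCE
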