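import Mathlib
import Pool.Agent.N973.P15.Defs3
import Pool.Agent.N575.P15.HE3
import Pool.Agent.N575.P15.PC5

/-!
# The Hecke relations at two for norms divisible by three, the pair counts for norms divisible by
five (frozen statements of `Pool.Agent.N973.P15.Defs3`)
-/

set_option autoImplicit false

namespace Pool.Agent.N575.P15.T3

open Finset
open Pool.Agent.Z700 (hh fac)
open Pool.Agent.N969.P15 Pool.Agent.N973.P15
open Pool.Agent.N575.P15.PC5 (t_PC5 hh_five)

theorem t_HE3 : S_HE3 := Pool.Agent.N575.P15.t_HE3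

theorem t_HE3E : S_HE3E := Pool.Agent.N575.P15.t_HE3E

theorem pc5_of {n1 n2 : ℕ} {b : ℤ} {D : ℕ} {W : ℤ} (hs : Squarefree n1) (h5 : 5 ∣ n1)
    (hD : 0 < D) (hDD : (D : ℤ) = n1 * n2 - b ^ 2) (h0 : (cp n1 b n2 : ℤ) = if 5 ∣ D then 6 * W else 0) :
    (cp n1 b n2 : ℤ) = 3 * (if 5 ∣ D then (1 - hh n1 D 5) * W else 0) := by
  by_cases hc : cp n1 b n2 = 0
  · rw [hc] at h0 ⊢
    split_ifs at h0 ⊢ with h
    · have : W = 0 := by
        have h0' : (0 : ℤ) = 6 * W := h0
        omega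
      rw [this]
      simp
    · simp
  · have h1 := hc
    unfold cp at h1
    obtain ⟨q, hq⟩ := Finset.card_ne_zero.1 h1
    rw [Finset.mem_filter, Finset.mem_product, Pool.Agent.N972.PC15.mem_vec,
      Pool.Agent.N972.PC15.mem_vec, Pool.Agent.N972.PC15.ip_eq] at hq
    obtain ⟨⟨hv, hw⟩, hvw⟩ := hq
    have h2 := hh_five hs h5 hD hDD hv hw hvw
    rw [h0, h2]
    split_ifs
    · ring
    · ring

theorem t_PC5' : S_PC5 := by
  intro n1 n2 b D hs h3 h5 hD hDD
  exact pc5_of hs h5 hD hDD (t_PC5 n1 n2 b D hs h3 h5 hD hDD)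

end Pool.Agent.N575.P15.T3
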